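import Pool.Agent.Lib.MP_1a91b9_ntK.Q.All
import Pool.Agent.Lib.MP_1a91b9_ntK2.D.UpG

/-!
# Cubic twists, assembly, file LimK: the exact density of the good pairs
-/

set_option autoImplicit false

namespace Pool.Agent.Lib.MP_1a91b9_ntK

open NumberField IsDedekindDomain Finset Filter Topology Pool.Agent.Lib.MP_1a91b9_ntT
  Pool.Agent.Lib.MP_1a91b9_ntK2 Pool.Agent.Lib.MP_1a91b9_ntK2.D9
open Pool.Agent.Lib.MP_1a91b9_ntH (wO s3 Nz PS nm Sx mem_Sx prime_s3 s3_sq abs_norm_le)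

noncomputable section

/-- a limit from two lower bounds -/
theorem limK_of_bounds {a b n : ℝ → ℕ} (h : ∀ X, a X + b X = n X) {c : ℝ}
    (h1 : ∀ ε : ℝ, 0 < ε → ∀ᶠ X : ℝ in atTop, c - ε ≤ (a X : ℝ) / (n X : ℝ))
    (h2 : ∀ ε : ℝ, 0 < ε → ∀ᶠ X : ℝ in atTop, (1 - c) - ε ≤ (b X : ℝ) / (n X : ℝ)) :
    Tendsto (fun X => (a X : ℝ) / (n X : ℝ)) atTop (𝓝 c) := by
  have key : ∀ X, (a X : ℝ) / (n X : ℝ) + (b X : ℝ) / (n X : ℝ) ≤ 1 := by
    intro X
    rw [← add_div]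
    have h3 : (a X : ℝ) + (b X : ℝ) = (n X : ℝ) := by exact_mod_cast h X
    rw [h3]
    exact div_self_le_one _
  refine tendsto_order.2 ⟨fun c' hc => ?_, fun c' hc => ?_⟩
  · filter_upwards [h1 ((c - c') / 2) (by linarith)] with X hX
    linarith
  · filter_upwards [h2 ((c' - c) / 2) (by linarith)] with X hX
    linarith [key X]

/-- the number of elements with and without a property -/
theorem cardK_add_card {P : 𝓞 K → Prop} {X : ℝ} (Q : 𝓞 K → Prop)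
    (hP : ∀ x, P x → |Algebra.norm ℤ x| ≤ X) :
    Nat.card {x : 𝓞 K // P x ∧ Q x} + Nat.card {x : 𝓞 K // P x ∧ ¬ Q x} =
      Nat.card {x : 𝓞 K // P x} := by
  classical
  have hf : {x : 𝓞 K | P x}.Finite := by
    have h1 := D9.finite_le X
    have h2 : Set.Finite {x : 𝓞 K | (Nz x : ℝ) ≤ X} := Set.finite_coe_iff.1 h1
    exact h2.subset fun x hx => (abs_norm_le x X).1 (hP x hx)
  have e1 : Nat.card {x : 𝓞 K // P x} = {x : 𝓞 K | P x}.ncard := rfl
  have e2 : Nat.card {x : 𝓞 K // P x ∧ Q x} = ({x : 𝓞 K | P x} ∩ {x : 𝓞 K | Q x}).ncard := rfl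
  have e3 : Nat.card {x : 𝓞 K // P x ∧ ¬ Q x} = ({x : 𝓞 K | P x} \ {x : 𝓞 K | Q x}).ncard := rfl
  rw [e1, e2, e3, Set.ncard_inter_add_ncard_sdiff_eq_ncard _ _ hf]

open Classical in
theorem dens_up {T : Finset P3} {α β : ZMod 3} {κ ε : ℝ} {G : Finset P3 → Prop}
    {G' : Finset P3 → Prop} [DecidablePred G] {X : ℕ}
    (h : (((Da.SA9 d3b T α β X).filter fun S => G S).card : ℝ) ≤
      κ * ((Da.SA9 d3b T α β X).card : ℝ) + ε * X)
    (hG : ∀ S, Disjoint S T → cl3 (DD3 S * DD3 T ^ 2) = α → cn3 (DD3 S * DD3 T ^ 2) = β → G' S →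
      G S) :
    ((ClsG T α β G' X).card : ℝ) ≤ κ * ((Cls T α β X).card : ℝ) + ε * X := by
  have e : Da.SA9 d3b T α β X = Cls T α β X := SA9_eq T α β X
  rw [← e]
  refine le_trans (Nat.cast_le.2 (card_le_card ?_)) h
  intro S hS
  rw [ClsG, mem_filter] at hS
  rw [mem_filter, SA9_eq, mem_filter]
  obtain ⟨h1, h2, ⟨h3, h4⟩, h5⟩ := hS
  exact ⟨⟨h1, h2, h3, h4⟩, hG S h2 h3 h4 h5⟩

/-- **The upper density of the good pairs in every family.** -/
theorem dens_all_upper (i : Idx) (T : Finset P3) (κ : ℝ) (hκ : Da.cinf3 < κ) (ε : ℝ)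
    (hε : 0 < ε) : ∃ X₀ : ℕ, ∀ X : ℕ, X₀ ≤ X →
      ((ClsG T i.2.2.2.1 i.2.2.2.2 (fun S => Good9 i S T) X).card : ℝ) ≤
        κ * ((Cls T i.2.2.2.1 i.2.2.2.2 X).card : ℝ) + ε * X := by
  obtain ⟨b, k, j, α, β⟩ := i
  dsimp only
  have h01 : (0 : Fin 3) ≠ 1 := by decide
  have h02 : (0 : Fin 3) ≠ 2 := by decide
  have h12 : (1 : Fin 3) ≠ 2 := by decide
  rcases fin3_cases j with rfl | rfl | rfl
  · by_cases hk : k = 0
    · subst hk
      by_cases hα : α = 0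
      · subst hα
        obtain ⟨X₀, h⟩ := Da.density9_B0_upper d3b_OK card_P3 β T hκ ε hε
        refine ⟨X₀, fun X hX => dens_up (h X hX β) ?_⟩
        intro S hST h3 _ h5
        rcases h5 with ⟨_, h5⟩ | ⟨_, _, _, h5⟩ | ⟨h5, _⟩ | ⟨h5, _⟩
        · exfalso
          rcases h5 with ⟨h6, _⟩ | ⟨_, h6, _⟩
          · exact h6 rfl
          · apply h6
            have h7 := cls_a hST
            rw [h3] at h7
            exact h7
        · exact h5.2
        · exact absurd h5 h01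
        · exact absurd h5 h02
      · obtain ⟨X₀, h⟩ := Da.density9_zero_upper d3b_OK card_P3 T hκ ε hε
        refine ⟨X₀, fun X hX => dens_up (h X hX α β) ?_⟩
        intro S hST h3 _ h5
        rcases h5 with ⟨_, h5⟩ | ⟨_, _, h5, _⟩ | ⟨h5, _⟩ | ⟨h5, _⟩
        · rcases h5 with ⟨h6, _⟩ | ⟨_, _, h6⟩
          · exact absurd rfl h6
          · exact h6
        · exact absurd h5 hα
        · exact absurd h5 h01
        · exact absurd h5 h02
    · obtain ⟨X₀, h⟩ := Da.density9_upper d3b_OK card_P3 (τ := (k : ZMod 3)) (σ := 0)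
        (Or.inl hk) T hκ ε hε
      refine ⟨X₀, fun X hX => dens_up (h X hX α β) ?_⟩
      intro S hST h3 _ h5
      rw [N_tw]
      rcases h5 with ⟨_, h5⟩ | ⟨_, h5, _, _⟩ | ⟨h5, _⟩ | ⟨h5, _⟩
      · rcases h5 with ⟨_, h6⟩ | ⟨h6, _⟩
        · exact h6
        · exact absurd h6 hk
      · exact absurd h5 hk
      · exact absurd h5 h01
      · exact absurd h5 h02
  · obtain ⟨X₀, h⟩ := Da.density9_B_upper d3b_OK card_P3 (k : ZMod 3) (σ := 1) (by decide) k T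
      hκ ε hε
    refine ⟨X₀, fun X hX => dens_up (h X hX α β) ?_⟩
    intro S hST h3 _ h5
    rcases h5 with ⟨h5, _⟩ | ⟨h5, _⟩ | ⟨_, h5⟩ | ⟨h5, _⟩
    · exact absurd h5.symm h01
    · exact absurd h5.symm h01
    · exact h5
    · exact absurd h5 h12
  · obtain ⟨X₀, h⟩ := Da.density9_upper d3b_OK card_P3 (τ := (k : ZMod 3)) (σ := 2)
      (Or.inr (by decide)) T hκ ε hε
    refine ⟨X₀, fun X hX => dens_up (h X hX α β) ?_⟩
    intro S hST h3 _ h5
    rcases h5 with ⟨h5, _⟩ | ⟨h5, _⟩ | ⟨h5, _⟩ | ⟨_, h5⟩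
    · exact absurd h5.symm h02
    · exact absurd h5.symm h02
    · exact absurd h5.symm h12
    · exact h5

/-- the bad pairs -/
def Bad9 (i : Idx) (T S : Finset P3) : Prop := (S ∪ T).Nonempty ∧ ¬ Good9 i S T

open Classical in
/-- **The lower density of the bad pairs.** -/
theorem dens_bad (i : Idx) (T : Finset P3) (κ : ℝ) (hκ : Da.cinf3 < κ) (ε : ℝ)
    (hε : 0 < ε) : ∃ X₀ : ℕ, ∀ X : ℕ, X₀ ≤ X →
      (1 - κ) * ((Cls T i.2.2.2.1 i.2.2.2.2 X).card : ℝ) - ε * X ≤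
        ((ClsG T i.2.2.2.1 i.2.2.2.2 (Bad9 i T) X).card : ℝ) := by
  obtain ⟨X₀, h⟩ := dens_all_upper i T κ hκ (ε / 2) (half_pos hε)
  refine ⟨X₀ + ⌈2 / ε⌉₊, fun X hX => ?_⟩
  have h1 := h X (by omega)
  have h3 : (2 : ℝ) / ε ≤ X := by
    have h4 : ⌈2 / ε⌉₊ ≤ X := by omega
    exact (Nat.le_ceil _).trans (by exact_mod_cast h4)
  have h4 : 1 ≤ ε / 2 * X := by
    rw [div_le_iff₀ hε] at h3
    linarith
  have h5 : (Cls T i.2.2.2.1 i.2.2.2.2 X).card ≤
      (ClsG T i.2.2.2.1 i.2.2.2.2 (fun S => Good9 i S T) X).card +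
      ((ClsG T i.2.2.2.1 i.2.2.2.2 (Bad9 i T) X).card + 1) := by
    have h6 : Cls T i.2.2.2.1 i.2.2.2.2 X ⊆
        ClsG T i.2.2.2.1 i.2.2.2.2 (fun S => Good9 i S T) X ∪
        insert ∅ (ClsG T i.2.2.2.1 i.2.2.2.2 (Bad9 i T) X) := by
      intro S hS
      rw [Cls, mem_filter] at hS
      rw [mem_union, mem_insert, ClsG, ClsG, mem_filter, mem_filter]
      by_cases hG : Good9 i S T
      · exact Or.inl ⟨hS.1, hS.2.1, hS.2.2, hG⟩
      · right
        by_cases h7 : S = ∅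
        · exact Or.inl h7
        · right
          have h8 : (S ∪ T).Nonempty := (nonempty_iff_ne_empty.2 h7).mono subset_union_left
          exact ⟨hS.1, hS.2.1, hS.2.2, h8, hG⟩
    refine (card_le_card h6).trans ((card_union_le _ _).trans ?_)
    exact Nat.add_le_add_left (card_insert_le _ _) _
  have h6 : ((Cls T i.2.2.2.1 i.2.2.2.2 X).card : ℝ) ≤
      ((ClsG T i.2.2.2.1 i.2.2.2.2 (fun S => Good9 i S T) X).card : ℝ) +
      (((ClsG T i.2.2.2.1 i.2.2.2.2 (Bad9 i T) X).card : ℝ) +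
        1) := by
    exact_mod_cast h5
  linarith

theorem cinf3_lt_one : Da.cinf3 < 1 := by
  rw [Da.cinf3_eq]
  have h1 := Da.fs3_iter 12
  have h4 : |(-1 / 3 * (1 / 3) ^ 12 : ℝ)| = 1 / 3 * (1 / 3) ^ 12 := by
    rw [abs_of_neg (by norm_num)]
    norm_num
  have h2 := Da.fs3_near (z := -1 / 3 * (1 / 3) ^ 12) (by rw [h4]; norm_num)
  rw [← h1] at h2
  have h3 := (abs_le.1 h2).2
  rw [h4] at h3
  generalize Da.fs3 (-1 / 3) = x at h3 ⊢
  simp only [prod_range_succ, prod_range_zero] at h3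
  norm_num at h3
  linarith

/-- **The exact density.** If the property `Pr` holds for a pair exactly if it is good (with the
possible exception of the units), then the proportion of the `D` with `Pr` in the class of `u` modulo
`m` tends to the infinite product. -/
theorem lim9 {m u : 𝓞 K} (hm : m ∣ 9) (hu : ¬ (s3 ^ 3 ∣ m ∧ s3 ^ 3 ∣ u)) (Pr : 𝓞 K → Prop)
    (hPr1 : ∀ (i : Idx) (S T : Finset P3), Disjoint S T →
      cl3 (DD3 S * DD3 T ^ 2) = i.2.2.2.1 → cn3 (DD3 S * DD3 T ^ 2) = i.2.2.2.2 →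
      Good9 i S T → Pr (ph i (DD3 S * DD3 T ^ 2)))
    (hPr2 : ∀ (i : Idx) (S T : Finset P3), Disjoint S T → (S ∪ T).Nonempty →
      cl3 (DD3 S * DD3 T ^ 2) = i.2.2.2.1 → cn3 (DD3 S * DD3 T ^ 2) = i.2.2.2.2 →
      Pr (ph i (DD3 S * DD3 T ^ 2)) → Good9 i S T) :
    Tendsto (fun X : ℝ =>
      (Nat.card {x : 𝓞 K // (∀ p, Prime p → ¬ p ^ 3 ∣ x) ∧ m ∣ x - u ∧ |Algebra.norm ℤ x| ≤ X ∧
          Pr x} : ℝ) /
        (Nat.card {x : 𝓞 K // (∀ p, Prime p → ¬ p ^ 3 ∣ x) ∧ m ∣ x - u ∧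
          |Algebra.norm ℤ x| ≤ X} : ℝ)) atTop
      (𝓝 (∏' i : ℕ, (1 + 1 / (3 : ℝ) ^ (i + 1))⁻¹)) := by
  classical
  refine limK_of_bounds
    (b := fun X => Nat.card {x : 𝓞 K // (∀ p, Prime p → ¬ p ^ 3 ∣ x) ∧ m ∣ x - u ∧
      |Algebra.norm ℤ x| ≤ X ∧ ¬ Pr x}) (fun X => ?_)
    (fun ε hε => density_gen hm hu Good9 (fun i _ T κ hκ η hη => dens_all i T κ hκ η hη) Pr
      (fun i S T hST hα hβ _ hG => hPr1 i S T hST hα hβ hG) ε hε) (fun ε hε => ?_)
  · have h := cardK_add_card (P := fun x : 𝓞 K => (∀ p, Prime p → ¬ p ^ 3 ∣ x) ∧ m ∣ x - u ∧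
      |Algebra.norm ℤ x| ≤ X) (X := X) Pr (fun x hx => hx.2.2)
    simp only [and_assoc] at h
    exact h
  · rw [cinf3_form]
    have hc1 := cinf3_lt_one
    obtain ⟨κ, hκ1, hκ2⟩ : ∃ κ : ℝ, Da.cinf3 < κ ∧ κ < min 1 (Da.cinf3 + ε) :=
      exists_between (lt_min hc1 (by linarith))
    have hκ3 : κ < 1 := lt_of_lt_of_le hκ2 (min_le_left _ _)
    have hκ4 : κ < Da.cinf3 + ε := lt_of_lt_of_le hκ2 (min_le_right _ _)
    have key := density_all9 (fun x => m ∣ x - u) (fun i y y' hy hy' h9 => ?_)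
      (exists_cf_class hm hu) (1 - κ) (1 - Da.cinf3 - ε) (by linarith) (by linarith)
      (fun i S T => Bad9 i T S)
      (fun i _ T η hη => dens_bad i T κ hκ1 η hη) (fun x => ¬ Pr x)
      (fun i S T hST hα hβ _ hG h => hG.2 (hPr2 i S T hST hG.1 hα hβ h))
    · filter_upwards [key] with X hX
      simp only [CF_iff] at hX
      exact hX
    · have h1 : m ∣ ph i y - ph i y' := by
        refine hm.trans ?_
        unfold ph
        rw [← mul_sub, ← mul_sub]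
        exact Dvd.dvd.mul_left (Dvd.dvd.mul_left h9 _) _
      constructor
      · intro h2
        have e : ph i y' - u = (ph i y - u) - (ph i y - ph i y') := by ring
        rw [e]
        exact dvd_sub h2 h1
      · intro h2
        have e : ph i y - u = (ph i y' - u) + (ph i y - ph i y') := by ring
        rw [e]
        exact dvd_add h2 h1

end

end Pool.Agent.Lib.MP_1a91b9_ntK
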