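import Pool.Agent.Lib.MP_1a91b9_ntK.Q.Gen9
import Pool.Agent.Lib.MP_1a91b9_ntK.A.Top1
import Pool.Agent.Lib.MP_1a91b9_ntK.A.Top2
import Pool.Agent.Lib.MP_1a91b9_ntK.C.ShaWj
import Pool.Agent.Lib.MP_1a91b9_ntK2.D.DAlgG

/-!
# Cubic twists, assembly, file PtsJ: Q1 for one `D` divisible by `√-3`
-/

set_option autoImplicit false

namespace Pool.Agent.Lib.MP_1a91b9_ntK

open NumberField IsDedekindDomain Finset Pool.Agent.Lib.MP_1a91b9_ntT Pool.Agent.Lib.MP_1a91b9_ntG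
  Pool.Agent.Lib.MP_1a91b9_nt Pool.Agent.Lib.MP_1a91b9_ntK2 Pool.Agent.Lib.MP_1a91b9_ntK2.D9
open Pool.Agent.Lib.MP_1a91b9_ntH (wO s3 cp Nz)

noncomputable section

theorem serj_pm (k j : ZMod 3) (e : P3 → ZMod 3) (S : Finset P3) (he : ∀ q ∈ S, e q ≠ 0)
    {D : 𝓞 K} (hD : D = Dj k j e S ∨ D = -Dj k j e S) :
    ∃ g : ℂ → ℂ, Differentiable ℂ g ∧
      (∀ s : ℂ, 3 / 2 < s.re → g s = (WD D).LSeries s) ∧
      g 1 = Lj k j e S 1 * (starRingEnd ℂ) (Lj k j e S 1) :=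
  ser3_gen_pm hD (Xj_chr k j e S) (Dj_ne k j e S)
    (fun q hq => ⟨Dj_cube k j e S q, Xj_bad k j e S q (Dj_dvd k j e S q hq)⟩)
    (fun q hq => Xj_good k j e S q fun h => hq (Dj_of_mem k j e S he q h))

theorem kapJ_eq (k j : ZMod 3) : kapJ k j = fun q => k * d3b.a q + j * d3b.b q := by
  funext q
  rw [kapJ, abar_d3, ← bbar_q]
  change -(k * -d3.a q) + j * cq q s3 = k * d3.a q + j * cq q s3
  ring

theorem NJ_eq (k j : ZMod 3) (e : P3 → ZMod 3) (R : Finset P3) :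
    NJ k j e R = (d3b.tw k j).N e 1 R := by
  rw [d3b.N_eq_NE, NJ, kapJ_eq]
  rfl

variable {k : ZMod 3} {e : P3 → ZMod 3} {R : Finset P3}

/-- the property of Q1 -/
def Pr1j (D : 𝓞 K) : Prop :=
  (∃ g : ℂ → ℂ, Differentiable ℂ g ∧
      (∀ s : ℂ, 3 / 2 < s.re → g s = (WD D).LSeries s) ∧ g 1 ≠ 0) ∧
    Finite (WD D).toAffine.Point ∧ ∀ x y : K, x ^ 3 + y ^ 3 = (D : K) → x ^ 3 = y ^ 3

theorem e_val (he : ∀ q, e q ≠ 0) : ∀ q ∈ R, ¬ 3 ∣ (e q).val := by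
  intro q _ h3
  have h4 := (ZMod.natCast_eq_zero_iff (e q).val 3).2 h3
  rw [ZMod.natCast_zmod_val] at h4
  exact he q h4

/-- **Q1**, `√-3 ^ 2 ∥ D` -/
theorem q1_j2 (he : ∀ q, e q ≠ 0) (h : ((d3b.tw k 2).N e 1 R).det ≠ 0) {D : 𝓞 K}
    (hD : D = Dj k 2 e R ∨ D = -Dj k 2 e R) : Pr1j D := by
  rw [← NJ_eq] at h
  obtain ⟨g, h1, h2, h3⟩ := serj_pm k 2 e R (fun q _ => he q) hD
  have hL := L2_ne (fun q _ => he q) h
  have hG : C.GoodG R ((k.val : ℕ) : ZMod 3) 2 (fun q => ((e q).val : ZMod 3)) 0 1 := by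
    simp only [ZMod.natCast_zmod_val]
    refine C.goodG_det (κ := kapJ k 2) (fun q _ => ?_) h
    rw [kapJ_eq]
    rfl
  obtain ⟨hf, -, -, hc⟩ := C.wd_j2 R k.val (fun q => (e q).val) (e_val he) hG hD
  refine ⟨⟨g, h1, h2, fun h0 => ?_⟩, hf, fun x y hxy => absurd hxy (hc x y)⟩
  rw [h0] at h3
  exact mul_ne_zero hL ((_root_.map_ne_zero _).2 hL) h3.symm

/-- the sign of the border does not matter -/
theorem border_neg {n : Type*} [Fintype n] [DecidableEq n] (N : Matrix n n (ZMod 3))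
    (a : n → ZMod 3) (z : ZMod 3) :
    (Matrix.fromBlocks N (fun i (_ : Unit) => -a i) (fun _ j => -a j) (fun _ _ => z)).det =
      (Matrix.fromBlocks N (fun i (_ : Unit) => a i) (fun _ j => a j) (fun _ _ => z)).det := by
  have h1 : Matrix.fromBlocks N (fun i (_ : Unit) => -a i) (fun _ j => -a j) (fun _ _ => z) =
      Matrix.fromBlocks (1 : Matrix n n (ZMod 3)) 0 0 (-1 : Matrix Unit Unit (ZMod 3)) *
        Matrix.fromBlocks N (fun i (_ : Unit) => a i) (fun _ j => a j) (fun _ _ => z) *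
        Matrix.fromBlocks (1 : Matrix n n (ZMod 3)) 0 0 (-1 : Matrix Unit Unit (ZMod 3)) := by
    rw [Matrix.fromBlocks_multiply, Matrix.fromBlocks_multiply]
    simp only [Matrix.one_mul, Matrix.zero_mul, add_zero, zero_add, Matrix.mul_one,
      Matrix.mul_zero, Matrix.neg_mul, Matrix.mul_neg, neg_neg]
    rfl
  have h2 : (Matrix.fromBlocks (1 : Matrix n n (ZMod 3)) 0 0
      (-1 : Matrix Unit Unit (ZMod 3))).det * (Matrix.fromBlocks (1 : Matrix n n (ZMod 3)) 0 0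
      (-1 : Matrix Unit Unit (ZMod 3))).det = 1 := by
    rw [Matrix.det_fromBlocks_zero₂₁, Matrix.det_one, one_mul, Matrix.det_unique]
    simp
  rw [h1, Matrix.det_mul, Matrix.det_mul]
  linear_combination (Matrix.fromBlocks N (fun i (_ : Unit) => a i) (fun _ j => a j)
    (fun _ _ => z)).det * h2

theorem NJ1_det (k : ZMod 3) (e : P3 → ZMod 3) (R : Finset P3) :
    (NJ1 k e R).det = (d3b.NB e k 1 k R).det := by
  have h1 : NJ1 k e R = Matrix.fromBlocks (NE d3.s (kapJ k 1) e R)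
      (fun i (_ : Unit) => -(d3.a i)) (fun _ j => -(d3.a j)) (fun _ _ => k) := by
    rw [NJ1, NB]
    congr 1
    · funext i _
      exact abar_d3 i
    · funext _ j
      exact abar_d3 j
  rw [h1, border_neg (NE d3.s (kapJ k 1) e R) (fun i : R => d3.a i) k, d3b.NB_eq, kapJ_eq]
  rfl

/-- **Q1**, `√-3 ∥ D` -/
theorem q1_j1 (he : ∀ q, e q ≠ 0) (h : (d3b.NB e k 1 k R).det ≠ 0) {D : 𝓞 K}
    (hD : D = Dj k 1 e R ∨ D = -Dj k 1 e R) : Pr1j D := by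
  have hN : (NJ1 k e R).det ≠ 0 := by
    rw [NJ1_det]
    exact h
  obtain ⟨g, h1, h2, h3⟩ := serj_pm k 1 e R (fun q _ => he q) hD
  have hL := L1_ne (fun q _ => he q) hN
  have hG : C.GoodG R ((k.val : ℕ) : ZMod 3) 1 (fun q => ((e q).val : ZMod 3)) 2
      (-((k.val : ℕ) : ZMod 3)) := by
    simp only [ZMod.natCast_zmod_val]
    rw [d3b.NB_eq] at h
    refine C.goodG_NB (κ := fun q => k * d3b.a q + 1 * d3b.b q) (fun q _ => rfl) (c := 1)
      (by decide) (b₁ := Matrix.of fun j _ => d3b.a j) (b₂ := Matrix.of fun _ j => d3b.a j)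
      (d := Matrix.of fun _ _ => k) (fun q _ => ?_) (fun _ q => ?_) (fun _ _ => rfl) h
    · rw [one_mul]
      rfl
    · rw [one_mul]
      rfl
  obtain ⟨hf, -, -, hc⟩ := C.wd_j1 R k.val (fun q => (e q).val) (e_val he) hG hD
  refine ⟨⟨g, h1, h2, fun h0 => ?_⟩, hf, fun x y hxy => absurd hxy (hc x y)⟩
  rw [h0] at h3
  exact mul_ne_zero hL ((_root_.map_ne_zero _).2 hL) h3.symm

end

end Pool.Agent.Lib.MP_1a91b9_ntK
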