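import Pool.Agent.Lib.MP_1a91b9_ntK.A.TopH
import Pool.Agent.Lib.MP_1a91b9_ntK.Q.PtsJ

/-!
# Cubic twists, assembly, file PtsH: Q1 for one `D = ± 1` modulo `3 √-3`
-/

set_option autoImplicit false

namespace Pool.Agent.Lib.MP_1a91b9_ntK

open NumberField IsDedekindDomain Finset Pool.Agent.Lib.MP_1a91b9_ntT Pool.Agent.Lib.MP_1a91b9_ntG
  Pool.Agent.Lib.MP_1a91b9_nt Pool.Agent.Lib.MP_1a91b9_ntK2 Pool.Agent.Lib.MP_1a91b9_ntK2.D9
open Pool.Agent.Lib.MP_1a91b9_ntH (wO s3 cp Nz)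

noncomputable section

variable {e : P3 → ZMod 3} {R : Finset P3}

theorem aP_d3 (q : P3) : aP q = -d3.a q := abar_d3 q

theorem bP_d3 (q : P3) : bP q = d3b.b q := (bbar_q q).symm

/-- the kernel of the bordered matrix, in the form of the L-values -/
theorem ker_NH (he : ∀ q, e q ≠ 0) (hR : R.Nonempty) (hA : ∑ q ∈ R, e q * d3.a q = 0)
    (h : d3b.kB e 0 0 (∑ q ∈ R, e q * d3b.b q) R = 3) (v : R ⊕ Unit → ZMod 3)
    (hv : (NH d3.s aP bP e R).mulVec v = 0) :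
    ∃ c : ZMod 3, (∀ i : R, v (Sum.inl i) = c * e i) ∧ v (Sum.inr ()) = 0 := by
  have e1 : ∀ i : R, (NE d3.s 0 e R).mulVec (v ∘ Sum.inl) i + aP i * v (Sum.inr ()) = 0 := by
    intro i
    have h1 := congrFun hv (Sum.inl i)
    rw [NH, NB, Matrix.fromBlocks_mulVec] at h1
    have h2 : (NE d3.s 0 e R).mulVec (v ∘ Sum.inl) i +
        (∑ x : Unit, aP i * v (Sum.inr x)) = 0 := h1
    rw [Fintype.sum_unique (fun x : Unit => aP i * v (Sum.inr x))] at h2
    exact h2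
  have e2 : ∑ i : R, aP i * v (Sum.inl i) + (∑ q ∈ R, e q * bP q) * v (Sum.inr ()) = 0 := by
    have h1 := congrFun hv (Sum.inr ())
    rw [NH, NB, Matrix.fromBlocks_mulVec] at h1
    have h2 : (∑ i : R, aP i * v (Sum.inl i)) +
        (∑ x : Unit, (∑ q ∈ R, e q * bP q) * v (Sum.inr x)) = 0 := h1
    rw [Fintype.sum_unique (fun x : Unit => (∑ q ∈ R, e q * bP q) * v (Sum.inr x))] at h2
    exact h2
  have h0 : (fun q : P3 => (0 : ZMod 3) * d3b.a q + 0 * d3b.b q) = 0 := by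
    funext q
    rw [zero_mul, zero_mul, add_zero]
    rfl
  have key : (d3b.NB e 0 0 (∑ q ∈ R, e q * d3b.b q) R).mulVec
      (Sum.elim (fun i => v (Sum.inl i)) fun _ => -v (Sum.inr ())) = 0 := by
    rw [d3b.NB_eq, h0, Matrix.fromBlocks_mulVec]
    funext x
    rcases x with i | x
    · have h2 := e1 i
      rw [aP_d3] at h2
      have h3 : (NE d3.s 0 e R).mulVec (v ∘ Sum.inl) i +
          (∑ _x : Unit, d3.a i * -v (Sum.inr ())) = 0 := by
        rw [Fintype.sum_unique (fun _ : Unit => d3.a i * -v (Sum.inr ()))]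
        linear_combination h2
      exact h3
    · have h2 := e2
      simp only [aP_d3, bP_d3] at h2
      have h3 : ∑ i : R, -d3.a i * v (Sum.inl i) = -∑ i : R, d3.a i * v (Sum.inl i) := by
        rw [← sum_neg_distrib]
        exact sum_congr rfl fun i _ => neg_mul _ _
      rw [h3] at h2
      have h4 : (∑ i : R, d3.a i * v (Sum.inl i)) +
          (∑ _x : Unit, (∑ q ∈ R, e q * d3b.b q) * -v (Sum.inr ())) = 0 := by
        rw [Fintype.sum_unique (fun _ : Unit => (∑ q ∈ R, e q * d3b.b q) * -v (Sum.inr ()))]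
        linear_combination -h2
      exact h4
  obtain ⟨c, h1, h2⟩ := Dat3b.ker_NB d3b e (fun i => z3_sq _ (he i)) _ (nonempty_iff_ne_empty.1 hR)
    hA h _ key
  exact ⟨c, h1, neg_eq_zero.1 h2⟩

/-- **Q1**, the hard class -/
theorem q1_hard (he : ∀ q, e q ≠ 0) (hR : R.Nonempty) (hA : ∑ q ∈ R, e q * d3.a q = 0)
    (h : d3b.kB e 0 0 (∑ q ∈ R, e q * d3b.b q) R = 3) {D : 𝓞 K}
    (hD : D = Dk 0 e R ∨ D = -Dk 0 e R) : Pr1j D := by
  have hker := ker_NH he hR hA h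
  have hA' : ∑ q ∈ R, e q * aP q = 0 := by
    have h1 : ∑ q ∈ R, e q * aP q = -∑ q ∈ R, e q * d3.a q := by
      rw [← sum_neg_distrib]
      refine sum_congr rfl fun q _ => ?_
      rw [aP_d3]
      ring
    rw [h1, hA, neg_zero]
  obtain ⟨g, h1, h2, h3⟩ := ser3_pm 0 e R (fun q _ => he q) hD
  have h5 : kapH d3.s aP bP e R ≠ 0 :=
    kapH_ne_of_ker d3.s d3_sym aP bP e hR (fun q _ => he q) hA' hker
  have hL := LH_ne hR (fun q _ => he q) hA' h5
  have hc : (-1 : ZMod 3) * -1 = 1 := by decide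
  have ha : ∀ q : P3, aP q = -1 * d3.a q := by
    intro q
    rw [aP_d3, neg_one_mul]
  have hgood : C.GoodG R 0 0 (fun q => ((e q).val : ZMod 3)) 2
      (-∑ q ∈ R, (((e q).val : ℕ) : ZMod 3) * C.bq q) := by
    simp only [ZMod.natCast_zmod_val]
    exact C.goodG_B0 (κ := 0) (fun _ _ => rfl) hc (b₁ := fun i _ => aP i)
      (b₂ := fun _ j => aP j) (d := fun _ _ => ∑ q ∈ R, e q * bP q) (fun q _ => ha q)
      (fun _ q => ha q) (fun _ _ => by simp only [bP_d3]; rfl) hker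
  have hS' : ∑ q ∈ R, (((e q).val : ℕ) : ZMod 3) * d3.a q = 0 := by
    simp only [ZMod.natCast_zmod_val]
    exact hA
  obtain ⟨hf, -, -, hc⟩ := C.wd_hard R (fun q => (e q).val) (e_val he) hS' hgood hD
  refine ⟨⟨g, h1, h2, fun h0 => ?_⟩, hf, fun x y hxy => absurd hxy (hc x y)⟩
  rw [h0] at h3
  exact mul_ne_zero hL ((_root_.map_ne_zero _).2 hL) h3.symm

end

end Pool.Agent.Lib.MP_1a91b9_ntK
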