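import Pool.Agent.Lib.MP_1a91b9_ntK.Q.DensJ
import Pool.Agent.Lib.MP_1a91b9_ntK.Q.PtsH

/-!
# Cubic twists, assembly, file All: Q1 for all cube-free `D`
-/

set_option autoImplicit false

namespace Pool.Agent.Lib.MP_1a91b9_ntK

open NumberField IsDedekindDomain Finset Pool.Agent.Lib.MP_1a91b9_ntT Pool.Agent.Lib.MP_1a91b9_ntK2
  Pool.Agent.Lib.MP_1a91b9_ntK2.D9
open Pool.Agent.Lib.MP_1a91b9_ntH (wO s3 Nz PS nm Sx mem_Sx prime_s3 s3_sq)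

noncomputable section

/-- the elements of the families -/
theorem ph_j (b : Bool) (k j : Fin 3) (α β : ZMod 3) {S T : Finset P3} (hST : Disjoint S T) :
    ph (b, k, j, α, β) (DD3 S * DD3 T ^ 2) = Dj k j (eT T) (S ∪ T) ∨
      ph (b, k, j, α, β) (DD3 S * DD3 T ^ 2) = -Dj k j (eT T) (S ∪ T) := by
  rw [Dj, Dk_eT _ hST]
  have hj : ZMod.val (n := 3) j = (j : ℕ) := rfl
  have hk : ZMod.val (n := 3) k = (k : ℕ) := rfl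
  unfold ph un
  dsimp only
  cases b
  · left
    rw [if_neg (by simp), hj, hk]
    ring
  · right
    rw [if_pos rfl, hj, hk]
    ring

/-- the good pairs -/
def Good9 (i : Idx) (S T : Finset P3) : Prop :=
  (i.2.2.1 = 0 ∧ GoodK i.2.1 (eT T) (S ∪ T)) ∨
    (i.2.2.1 = 0 ∧ i.2.1 = 0 ∧ i.2.2.2.1 = 0 ∧ GoH i.2.2.2.2 T S) ∨
    (i.2.2.1 = 1 ∧ Go1 i.2.1 T S) ∨ (i.2.2.1 = 2 ∧ Go2 i.2.1 T S)

open Classical in
theorem ClsG_mono (T : Finset P3) (α β : ZMod 3) {G G' : Finset P3 → Prop} (h : ∀ S, G S → G' S)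
    (X : ℕ) : ((ClsG T α β G X).card : ℝ) ≤ ((ClsG T α β G' X).card : ℝ) := by
  refine Nat.cast_le.2 (card_le_card ?_)
  intro S hS
  rw [ClsG, mem_filter] at hS ⊢
  exact ⟨hS.1, hS.2.1, hS.2.2.1, h S hS.2.2.2⟩

theorem ClsG_imp {T : Finset P3} {α β : ZMod 3} {G G' : Finset P3 → Prop} (h : ∀ S, G S → G' S)
    {κ ε : ℝ} (hd : ∃ X₀ : ℕ, ∀ X : ℕ, X₀ ≤ X →
      κ * ((Cls T α β X).card : ℝ) - ε * X ≤ ((ClsG T α β G X).card : ℝ)) :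
    ∃ X₀ : ℕ, ∀ X : ℕ, X₀ ≤ X →
      κ * ((Cls T α β X).card : ℝ) - ε * X ≤ ((ClsG T α β G' X).card : ℝ) := by
  obtain ⟨X₀, h1⟩ := hd
  exact ⟨X₀, fun X hX => (h1 X hX).trans (ClsG_mono T α β h X)⟩

theorem fin3_cases : ∀ j : Fin 3, j = 0 ∨ j = 1 ∨ j = 2 := by decide

/-- **The density of the good pairs in every family.** -/
theorem dens_all (i : Idx) (T : Finset P3) (κ : ℝ) (hκ : κ < Da.cinf3) (ε : ℝ) (hε : 0 < ε) :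
    ∃ X₀ : ℕ, ∀ X : ℕ, X₀ ≤ X →
      κ * ((Cls T i.2.2.2.1 i.2.2.2.2 X).card : ℝ) - ε * X ≤
        ((ClsG T i.2.2.2.1 i.2.2.2.2 (fun S => Good9 i S T) X).card : ℝ) := by
  obtain ⟨b, k, j, α, β⟩ := i
  dsimp only
  rcases fin3_cases j with rfl | rfl | rfl
  · by_cases h : k = 0 ∧ α = 0
    · obtain ⟨rfl, rfl⟩ := h
      exact ClsG_imp (fun S hS => Or.inr (Or.inl ⟨rfl, rfl, rfl, hS⟩)) (densH β T κ hκ ε hε)
    · have hne : (k : ZMod 3) ≠ 0 ∨ α ≠ 0 := by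
        by_contra hc
        push Not at hc
        exact h ⟨hc.1, hc.2⟩
      exact ClsG_imp (G := fun S => GoodK k (eT T) (S ∪ T)) (fun S hS => Or.inl ⟨rfl, hS⟩)
        (densU k α β hne T κ hκ ε hε)
  · exact ClsG_imp (fun S hS => Or.inr (Or.inr (Or.inl ⟨rfl, hS⟩))) (dens1 k α β T κ hκ ε hε)
  · exact ClsG_imp (fun S hS => Or.inr (Or.inr (Or.inr ⟨rfl, hS⟩))) (dens2 k α β T κ hκ ε hε)

theorem Pr1j.pr1 {D : 𝓞 K} (h : Pr1j D) : Pr1 D := by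
  refine ⟨?_, h.2.2⟩
  rintro W rfl
  exact ⟨h.1, h.2.1⟩

/-- **Q1 for a good pair** -/
theorem pr1_all (i : Idx) {S T : Finset P3} (hST : Disjoint S T)
    (hα : cl3 (DD3 S * DD3 T ^ 2) = i.2.2.2.1) (hβ : cn3 (DD3 S * DD3 T ^ 2) = i.2.2.2.2)
    (hG : Good9 i S T) : Pr1 (ph i (DD3 S * DD3 T ^ 2)) := by
  obtain ⟨b, k, j, α, β⟩ := i
  dsimp only at hα hβ
  rcases hG with ⟨hj, h⟩ | ⟨hj, hk, ha, hR, h⟩ | ⟨hj, h⟩ | ⟨hj, h⟩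
  · dsimp only at hj h
    subst hj
    exact pr1_unit hST h
  · dsimp only at hj hk ha hR h
    subst hj hk ha
    refine (q1_hard (eT_ne T) hR ?_ ?_ (ph_zero b 0 0 β hST)).pr1
    · have h1 := cls_a hST
      rw [hα] at h1
      exact h1
    · have h1 := cls_b hST
      rw [hβ] at h1
      have h2 : ∑ q ∈ S ∪ T, eT T q * d3b.b q = β := h1
      rw [h2]
      exact h
  · dsimp only at hj h
    subst hj
    exact (q1_j1 (eT_ne T) h (ph_j b k 1 α β hST)).pr1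
  · dsimp only at hj h
    subst hj
    exact (q1_j2 (eT_ne T) h (ph_j b k 2 α β hST)).pr1

theorem main_q1A' {s m u : 𝓞 K} (hs : s ^ 2 = -3) (hm : m ∣ 9) (hu : ¬ (s ^ 3 ∣ m ∧ s ^ 3 ∣ u))
    (ε : ℝ) (hε : 0 < ε) :
    ∀ᶠ X : ℝ in Filter.atTop,
      (∏' i : ℕ, (1 + 1 / (3 : ℝ) ^ (i + 1))⁻¹) - ε ≤
      (Nat.card {x : 𝓞 K // (∀ p, Prime p → ¬ p ^ 3 ∣ x) ∧ m ∣ x - u ∧ |Algebra.norm ℤ x| ≤ X ∧
          Pr1 x} : ℝ) /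
        (Nat.card {x : 𝓞 K // (∀ p, Prime p → ¬ p ^ 3 ∣ x) ∧ m ∣ x - u ∧
          |Algebra.norm ℤ x| ≤ X} : ℝ) := by
  have hu' : ¬ (s3 ^ 3 ∣ m ∧ s3 ^ 3 ∣ u) := by
    rcases s_eq hs with rfl | rfl
    · exact hu
    · intro h
      have e : (-s3 : 𝓞 K) ^ 3 = -s3 ^ 3 := by ring
      rw [e] at hu
      exact hu ⟨(neg_dvd).2 h.1, (neg_dvd).2 h.2⟩
  exact density_gen hm hu' Good9 (fun i _ T κ hκ η hη => dens_all i T κ hκ η hη) Pr1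
    (fun i S T hST hα hβ _ hG => pr1_all i hST hα hβ hG) ε hε

/-- **Q1, all cube-free `D`** -/
theorem main_q1A (s m u : 𝓞 (CyclotomicField 3 ℚ)) (hs : s ^ 2 = -3) (hm : m ∣ 9)
    (hu : ¬ (s ^ 3 ∣ m ∧ s ^ 3 ∣ u)) (ε : ℝ) (hε : 0 < ε) :
    ∀ᶠ X : ℝ in Filter.atTop,
    (∏' i : ℕ, (1 + 1 / (3 : ℝ) ^ (i + 1))⁻¹) - ε ≤
      (Nat.card {D : 𝓞 (CyclotomicField 3 ℚ) // (∀ p, Prime p → ¬ p ^ 3 ∣ D) ∧ m ∣ D - u ∧
        |Algebra.norm ℤ D| ≤ X ∧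
        (∀ W : WeierstrassCurve (CyclotomicField 3 ℚ), W = ⟨0, 0, (D : CyclotomicField 3 ℚ), 0, 0⟩ →
          (∃ g : ℂ → ℂ, Differentiable ℂ g ∧ (∀ s : ℂ, 3 / 2 < s.re → g s = W.LSeries s) ∧
            g 1 ≠ 0) ∧ Finite W.toAffine.Point) ∧
        ∀ x y : CyclotomicField 3 ℚ, x ^ 3 + y ^ 3 = D → x ^ 3 = y ^ 3} : ℝ) /
      (Nat.card {D : 𝓞 (CyclotomicField 3 ℚ) // (∀ p, Prime p → ¬ p ^ 3 ∣ D) ∧ m ∣ D - u ∧
        |Algebra.norm ℤ D| ≤ X} : ℝ) :=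
  main_q1A' hs hm hu ε hε

end

end Pool.Agent.Lib.MP_1a91b9_ntK
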