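import Pool.Agent.Lib.MP_1a91b9_ntK.C.Q2H
import Pool.Agent.Lib.MP_1a91b9_ntK.C.TamHe
import Pool.Agent.Lib.MP_1a91b9_ntK.Q.All

/-!
# Cubic twists, assembly, file All2: Q2 for all cube-free `D`
-/

set_option autoImplicit false

namespace Pool.Agent.Lib.MP_1a91b9_ntK

open NumberField IsDedekindDomain Finset Pool.Agent.Lib.MP_1a91b9_ntT Pool.Agent.Lib.MP_1a91b9_ntK2
  Pool.Agent.Lib.MP_1a91b9_ntK2.D9
open Pool.Agent.Lib.MP_1a91b9_ntH (wO s3 Nz PS nm Sx mem_Sx prime_s3 s3_sq)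
open Pool.Agent.Lib.MP_1a91b9_ntT.S9 (tam)

noncomputable section

theorem in3_pp (S T : Finset P3) : In3 (DD3 S * DD3 T ^ 2) := by
  rw [pow_two]
  exact (DD3_in3 S).mul ((DD3_in3 T).mul (DD3_in3 T))

theorem ph_cube (i : Idx) {S T : Finset P3} (hST : Disjoint S T)
    (hα : cl3 (DD3 S * DD3 T ^ 2) = i.2.2.2.1) (hβ : cn3 (DD3 S * DD3 T ^ 2) = i.2.2.2.2) :
    ∀ p : 𝓞 K, Prime p → ¬ p ^ 3 ∣ ph i (DD3 S * DD3 T ^ 2) :=
  (CF_iff _).1 (ph_cf ⟨prm3.pp_cf hST, in3_pp S T, hα, hβ⟩)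

theorem hard_cong (b : Bool) (β : ZMod 3) {y : 𝓞 K} (hy : In3 y) (hα : cl3 y = 0) :
    3 * s3 ∣ ph (b, 0, 0, 0, β) y - 1 ∨ 3 * s3 ∣ ph (b, 0, 0, 0, β) y + 1 := by
  have hy1 : 3 * s3 ∣ y - 1 := C.cl3_of_zero hy hα
  have e : ph (b, 0, 0, 0, β) y = (if b then -1 else 1) * y := by
    unfold ph un
    dsimp only
    change _ * wO ^ 0 * (s3 ^ 0 * y) = _
    ring
  rw [e]
  cases b
  · left
    rw [if_neg (by simp), one_mul]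
    exact hy1
  · right
    have e1 : (if true = true then (-1 : 𝓞 K) else 1) * y + 1 = -(y - 1) := by
      rw [if_pos rfl]
      ring
    rw [e1]
    exact hy1.neg_right

theorem not_s3_of_cong {D : 𝓞 K} (h : 3 * s3 ∣ D - 1 ∨ 3 * s3 ∣ D + 1) : ¬ s3 ∣ D := by
  intro h3
  apply prime_s3.not_isUnit
  rcases h with h | h
  · have h1 : s3 ∣ D - (D - 1) := dvd_sub h3 ((Dvd.intro_left _ rfl).trans h)
    rw [sub_sub_cancel] at h1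
    exact isUnit_of_dvd_one h1
  · have h1 : s3 ∣ (D + 1) - D := dvd_sub ((Dvd.intro_left _ rfl).trans h) h3
    rw [add_sub_cancel_left] at h1
    exact isUnit_of_dvd_one h1

theorem sum_aP {e : P3 → ZMod 3} {R : Finset P3} :
    ∑ q ∈ R, e q * aP q = -∑ q ∈ R, e q * d3.a q := by
  rw [← sum_neg_distrib]
  refine sum_congr rfl fun q _ => ?_
  rw [aP_d3]
  ring

theorem q2_unit {k : ZMod 3} {e : P3 → ZMod 3} {R : Finset P3} (he : ∀ q, e q ≠ 0)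
    (h : GoodK k e R) {D : 𝓞 K} (hD : D = Dk k e R ∨ D = -Dk k e R)
    (hcube : ∀ p : 𝓞 K, Prime p → ¬ p ^ 3 ∣ D) : C.Q2 D := by
  have hR := h.ram3
  have hg := h.good3 he
  rcases h with ⟨hk, h⟩ | ⟨rfl, hA, h⟩
  · rw [← NK_eq_N] at h
    exact C.q2_ne hk (fun q _ => he q) h hR hg hD hcube
  · refine C.q2_zero (fun q _ => he q) ?_ (fun v hv => ?_) hR hg hD hcube
    · intro h1
      apply hA
      have h2 : ∑ q ∈ R, e q * abar q.1 = -∑ q ∈ R, e q * d3.a q := sum_aP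
      rw [h1] at h2
      exact (neg_eq_zero.1 h2.symm)
    · rw [NK_eq_N] at hv
      exact d3.ker_of_kc e (fun i => z3_sq _ (he i)) R h v hv

/-- **Q2 for a good pair** -/
theorem q2_all (i : Idx) {S T : Finset P3} (hST : Disjoint S T)
    (hα : cl3 (DD3 S * DD3 T ^ 2) = i.2.2.2.1) (hβ : cn3 (DD3 S * DD3 T ^ 2) = i.2.2.2.2)
    (hG : Good9 i S T) : C.Q2 (ph i (DD3 S * DD3 T ^ 2)) := by
  have hcube := ph_cube i hST hα hβ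
  obtain ⟨b, k, j, α, β⟩ := i
  dsimp only at hα hβ
  have he : ∀ q, eT T q ≠ 0 := eT_ne T
  rcases hG with ⟨hj, h⟩ | ⟨hj, hk, ha, hR, h⟩ | ⟨hj, h⟩ | ⟨hj, h⟩
  · dsimp only at hj h
    subst hj
    exact q2_unit he h (ph_zero b k α β hST) hcube
  · dsimp only at hj hk ha hR h
    subst hj hk ha
    have hA : ∑ q ∈ S ∪ T, eT T q * d3.a q = 0 := by
      have h1 := cls_a hST
      rw [hα] at h1
      exact h1
    have hB : d3b.kB (eT T) 0 0 (∑ q ∈ S ∪ T, eT T q * d3b.b q) (S ∪ T) = 3 := by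
      have h1 := cls_b hST
      rw [hβ] at h1
      have h2 : ∑ q ∈ S ∪ T, eT T q * d3b.b q = β := h1
      rw [h2]
      exact h
    have hker := ker_NH he hR hA hB
    have hc := hard_cong b β (in3_pp S T) hα
    refine C.q2_hard_of hR (fun q _ => he q) ?_ hker (ph_zero b 0 0 β hST) hcube fun v hv =>
      ⟨1, by norm_num, ?_⟩
    · rw [sum_aP, hA, neg_zero]
    · rw [C.tam_hard' (not_s3_of_cong hc) hc hv]
  · dsimp only at hj h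
    subst hj
    refine C.q2_j1 (fun q _ => he q) ?_ (ph_j b k 1 α β hST) hcube
    rw [NJ1_det]
    exact h
  · dsimp only at hj h
    subst hj
    refine C.q2_j2 (fun q _ => he q) ?_ (ph_j b k 2 α β hST) hcube
    rw [NJ_eq]
    exact h

/-- the property of Q2 -/
def Pr2 (D : 𝓞 K) : Prop :=
  ∀ W : WeierstrassCurve K, W = ⟨0, 0, (D : K), 0, 0⟩ →
    Pool.Agent.Lib.MP_1a91b9_ntT3.S9.PPartQ 3 W ∧
      Nat.card (Pool.Agent.Lib.MP_1a91b9_ntT3.S9.ShaP 3 W) = 1 ∧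
      ∀ v : HeightOneSpectrum (𝓞 K), D ∈ v.asIdeal → tam W v = 3

theorem pr2_of {D : 𝓞 K} (h : C.Q2 D) : Pr2 D := by
  rintro W rfl
  exact h

theorem main_q2A' {s m u : 𝓞 K} (hs : s ^ 2 = -3) (hm : m ∣ 9) (hu : ¬ (s ^ 3 ∣ m ∧ s ^ 3 ∣ u))
    (ε : ℝ) (hε : 0 < ε) :
    ∀ᶠ X : ℝ in Filter.atTop,
      (∏' i : ℕ, (1 + 1 / (3 : ℝ) ^ (i + 1))⁻¹) - ε ≤
      (Nat.card {x : 𝓞 K // (∀ p, Prime p → ¬ p ^ 3 ∣ x) ∧ m ∣ x - u ∧ |Algebra.norm ℤ x| ≤ X ∧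
          Pr2 x} : ℝ) /
        (Nat.card {x : 𝓞 K // (∀ p, Prime p → ¬ p ^ 3 ∣ x) ∧ m ∣ x - u ∧
          |Algebra.norm ℤ x| ≤ X} : ℝ) := by
  have hu' : ¬ (s3 ^ 3 ∣ m ∧ s3 ^ 3 ∣ u) := by
    rcases s_eq hs with rfl | rfl
    · exact hu
    · intro h
      have e : (-s3 : 𝓞 K) ^ 3 = -s3 ^ 3 := by ring
      rw [e] at hu
      exact hu ⟨(neg_dvd).2 h.1, (neg_dvd).2 h.2⟩
  exact density_gen hm hu' Good9 (fun i _ T κ hκ η hη => dens_all i T κ hκ η hη) Pr2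
    (fun i S T hST hα hβ _ hG => pr2_of (q2_all i hST hα hβ hG)) ε hε

end

end Pool.Agent.Lib.MP_1a91b9_ntK

namespace Pool.Agent.Lib.MP_1a91b9_ntK

open NumberField IsDedekindDomain Pool.Agent.Lib.MP_1a91b9_ntT3
open Pool.Agent.Lib.MP_1a91b9_ntT.S9 (tam)

/-- **Q2, all cube-free `D`** -/
theorem main_q2A (s m u : 𝓞 (CyclotomicField 3 ℚ)) (hs : s ^ 2 = -3) (hm : m ∣ 9)
    (hu : ¬ (s ^ 3 ∣ m ∧ s ^ 3 ∣ u)) (ε : ℝ) (hε : 0 < ε) :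
    ∀ᶠ X : ℝ in Filter.atTop,
    (∏' i : ℕ, (1 + 1 / (3 : ℝ) ^ (i + 1))⁻¹) - ε ≤
      (Nat.card {D : 𝓞 (CyclotomicField 3 ℚ) // (∀ p, Prime p → ¬ p ^ 3 ∣ D) ∧ m ∣ D - u ∧
        |Algebra.norm ℤ D| ≤ X ∧
        ∀ W : WeierstrassCurve (CyclotomicField 3 ℚ), W = ⟨0, 0, (D : CyclotomicField 3 ℚ), 0, 0⟩ →
          S9.PPartQ 3 W ∧ Nat.card (S9.ShaP 3 W) = 1 ∧
          ∀ v : HeightOneSpectrum (𝓞 (CyclotomicField 3 ℚ)), D ∈ v.asIdeal → tam W v = 3} : ℝ) /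
      (Nat.card {D : 𝓞 (CyclotomicField 3 ℚ) // (∀ p, Prime p → ¬ p ^ 3 ∣ D) ∧ m ∣ D - u ∧
        |Algebra.norm ℤ D| ≤ X} : ℝ) :=
  main_q2A' hs hm hu ε hε

end Pool.Agent.Lib.MP_1a91b9_ntK
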