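import Pool.Agent.Lib.MP_1a91b9_ntK.Q.Gen9

/-!
# Cubic twists, assembly, file Q1K: Q1 for the unit classes modulo `9` different from `± 1` modulo `3 √-3`
-/

set_option autoImplicit false

namespace Pool.Agent.Lib.MP_1a91b9_ntK

open NumberField IsDedekindDomain Finset Pool.Agent.Lib.MP_1a91b9_ntT Pool.Agent.Lib.MP_1a91b9_ntK2
  Pool.Agent.Lib.MP_1a91b9_ntK2.D9
open Pool.Agent.Lib.MP_1a91b9_ntH (wO s3 Nz PS nm Sx mem_Sx prime_s3 s3_sq)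

noncomputable section

open Classical in
/-- the density of the good pairs in the families of units -/
def DensU : Prop := ∀ (k α β : ZMod 3), (k ≠ 0 ∨ α ≠ 0) → ∀ T : Finset P3, ∀ κ : ℝ, κ < Da.cinf3 →
  ∀ ε : ℝ, 0 < ε → ∃ X₀ : ℕ, ∀ X : ℕ, X₀ ≤ X →
    κ * (((Sx P3 X).filter fun S => Disjoint S T ∧ cl3 (DD3 S * DD3 T ^ 2) = α ∧
      cn3 (DD3 S * DD3 T ^ 2) = β).card : ℝ) - ε * X ≤
    (((Sx P3 X).filter fun S => Disjoint S T ∧ (cl3 (DD3 S * DD3 T ^ 2) = α ∧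
      cn3 (DD3 S * DD3 T ^ 2) = β) ∧ GoodK k (eT T) (S ∪ T)).card : ℝ)

/-- `√-3` up to sign -/
theorem s_eq {s : 𝓞 K} (hs : s ^ 2 = -3) : s = s3 ∨ s = -s3 := by
  have h1 : (s - s3) * (s + s3) = 0 := by linear_combination hs - s3_sq
  rcases mul_eq_zero.1 h1 with h | h
  · exact Or.inl (sub_eq_zero.1 h)
  · exact Or.inr (eq_neg_of_add_eq_zero_left h)

/-- the property of Q1 -/
def Pr1 (D : 𝓞 K) : Prop :=
  (∀ W : WeierstrassCurve K, W = ⟨0, 0, (D : K), 0, 0⟩ →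
    (∃ g : ℂ → ℂ, Differentiable ℂ g ∧ (∀ s : ℂ, 3 / 2 < s.re → g s = W.LSeries s) ∧ g 1 ≠ 0) ∧
      Finite W.toAffine.Point) ∧ ∀ x y : K, x ^ 3 + y ^ 3 = D → x ^ 3 = y ^ 3

theorem pr1_unit {b : Bool} {k : Fin 3} {α β : ZMod 3} {S T : Finset P3} (hST : Disjoint S T)
    (h : GoodK k (eT T) (S ∪ T)) : Pr1 (ph (b, k, 0, α, β) (DD3 S * DD3 T ^ 2)) := by
  obtain ⟨h1, h2, h3⟩ := q1_one (eT_ne T) h (ph_zero b k α β hST)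
  refine ⟨?_, h3⟩
  rintro W rfl
  exact ⟨h1, h2⟩

theorem idx_zero {u : 𝓞 K} (h0 : ¬ s3 ∣ u) {i : Idx} {y : 𝓞 K} (h : (9 : 𝓞 K) ∣ ph i y - u) :
    i.2.2.1 = 0 := by
  by_contra hj
  apply h0
  have h9 : s3 ∣ (9 : 𝓞 K) := ⟨-3 * s3, by linear_combination (3 : 𝓞 K) * s3_sq⟩
  have h1 : s3 ∣ ph i y := by
    rw [ph_eq]
    refine Dvd.dvd.mul_right (dvd_pow_self _ ?_) _
    intro h2
    exact hj (Fin.ext h2)
  have e : u = ph i y - (ph i y - u) := by ring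
  rw [e]
  exact dvd_sub h1 (h9.trans h)

theorem idx_hard {u : 𝓞 K} (h1 : ¬ 3 * s3 ∣ u - 1) (h2 : ¬ 3 * s3 ∣ u + 1) {b : Bool} {k : Fin 3}
    {α β : ZMod 3} {y : 𝓞 K} (hy : In3 y) (hα : cl3 y = α)
    (h : (9 : 𝓞 K) ∣ ph (b, k, 0, α, β) y - u) : (k : ZMod 3) ≠ 0 ∨ α ≠ 0 := by
  by_contra hc
  push Not at hc
  obtain ⟨hk, rfl⟩ := hc
  have hy1 : 3 * s3 ∣ y - 1 := C.cl3_of_zero hy hα
  have h9 : 3 * s3 ∣ (9 : 𝓞 K) := ⟨-s3, by linear_combination (3 : 𝓞 K) * s3_sq⟩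
  have hk' : (k : ℕ) = 0 := congrArg Fin.val hk
  have e : ph (b, k, 0, 0, β) y = (if b then -1 else 1) * y := by
    unfold ph un
    dsimp only
    rw [hk']
    change _ * wO ^ 0 * (s3 ^ 0 * y) = _
    ring
  rw [e] at h
  have h' := h9.trans h
  cases b
  · apply h1
    have e1 : u - 1 = (y - 1) - ((if false = true then (-1 : 𝓞 K) else 1) * y - u) := by
      rw [if_neg (by simp)]
      ring
    rw [e1]
    exact dvd_sub hy1 h'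
  · apply h2
    have e1 : u + 1 = -(y - 1) - ((if true = true then (-1 : 𝓞 K) else 1) * y - u) := by
      rw [if_pos rfl]
      ring
    rw [e1]
    exact dvd_sub (dvd_neg.2 hy1) h'

theorem main_q1K' (hD : DensU) {s u : 𝓞 K} (hs : s ^ 2 = -3) (h0 : ¬ s ∣ u)
    (h1 : ¬ 3 * s ∣ u - 1) (h2 : ¬ 3 * s ∣ u + 1) (ε : ℝ) (hε : 0 < ε) :
    ∀ᶠ X : ℝ in Filter.atTop,
      (∏' i : ℕ, (1 + 1 / (3 : ℝ) ^ (i + 1))⁻¹) - ε ≤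
      (Nat.card {x : 𝓞 K // (∀ p, Prime p → ¬ p ^ 3 ∣ x) ∧ 9 ∣ x - u ∧ |Algebra.norm ℤ x| ≤ X ∧
          Pr1 x} : ℝ) /
        (Nat.card {x : 𝓞 K // (∀ p, Prime p → ¬ p ^ 3 ∣ x) ∧ 9 ∣ x - u ∧
          |Algebra.norm ℤ x| ≤ X} : ℝ) := by
  classical
  have g0 : ¬ s3 ∣ u := by
    rcases s_eq hs with rfl | rfl
    · exact h0
    · exact fun h => h0 ((neg_dvd).2 h)
  have g1 : ¬ 3 * s3 ∣ u - 1 := by
    rcases s_eq hs with rfl | rfl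
    · exact h1
    · intro h
      apply h1
      rw [mul_neg]
      exact (neg_dvd).2 h
  have g2 : ¬ 3 * s3 ∣ u + 1 := by
    rcases s_eq hs with rfl | rfl
    · exact h2
    · intro h
      apply h2
      rw [mul_neg]
      exact (neg_dvd).2 h
  have hu : ¬ (s3 ^ 3 ∣ (9 : 𝓞 K) ∧ s3 ^ 3 ∣ u) := fun h =>
    g0 ((dvd_pow_self s3 (by norm_num)).trans h.2)
  refine density_gen (m := 9) (dvd_refl _) hu (fun i S T => GoodK i.2.1 (eT T) (S ∪ T)) ?_ Pr1 ?_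
    ε hε
  · rintro ⟨b, k, j, α, β⟩ ⟨y, hy, h9⟩ T κ hκ η hη
    obtain rfl : j = 0 := idx_zero g0 h9
    exact hD k α β (idx_hard g1 g2 hy.2.1 hy.2.2.1 h9) T κ hκ η hη
  · rintro ⟨b, k, j, α, β⟩ S T hST hα hβ h9 hG
    obtain rfl : j = 0 := idx_zero g0 h9
    exact pr1_unit hST hG

theorem main_q1K (hD : DensU) (s u : 𝓞 (CyclotomicField 3 ℚ)) (hs : s ^ 2 = -3) (h0 : ¬ s ∣ u)
    (h1 : ¬ 3 * s ∣ u - 1) (h2 : ¬ 3 * s ∣ u + 1) (ε : ℝ) (hε : 0 < ε) :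
    ∀ᶠ X : ℝ in Filter.atTop,
    (∏' i : ℕ, (1 + 1 / (3 : ℝ) ^ (i + 1))⁻¹) - ε ≤
      (Nat.card {D : 𝓞 (CyclotomicField 3 ℚ) // (∀ p, Prime p → ¬ p ^ 3 ∣ D) ∧ 9 ∣ D - u ∧
        |Algebra.norm ℤ D| ≤ X ∧
        (∀ W : WeierstrassCurve (CyclotomicField 3 ℚ), W = ⟨0, 0, (D : CyclotomicField 3 ℚ), 0, 0⟩ →
          (∃ g : ℂ → ℂ, Differentiable ℂ g ∧ (∀ s : ℂ, 3 / 2 < s.re → g s = W.LSeries s) ∧
            g 1 ≠ 0) ∧ Finite W.toAffine.Point) ∧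
        ∀ x y : CyclotomicField 3 ℚ, x ^ 3 + y ^ 3 = D → x ^ 3 = y ^ 3} : ℝ) /
      (Nat.card {D : 𝓞 (CyclotomicField 3 ℚ) // (∀ p, Prime p → ¬ p ^ 3 ∣ D) ∧ 9 ∣ D - u ∧
        |Algebra.norm ℤ D| ≤ X} : ℝ) :=
  main_q1K' hD (s := s) (u := u) hs h0 h1 h2 ε hε

end

end Pool.Agent.Lib.MP_1a91b9_ntK
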