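import Pool.Agent.Lib.MP_1a91b9_ntK2.D.DAlgG
import Pool.Agent.Lib.MP_1a91b9_ntK.Q.Q1K

/-!
# Cubic twists, assembly, file Dens: the densities of the good pairs in all the families
-/

set_option autoImplicit false

namespace Pool.Agent.Lib.MP_1a91b9_ntK

open NumberField IsDedekindDomain Finset Pool.Agent.Lib.MP_1a91b9_ntT Pool.Agent.Lib.MP_1a91b9_ntK2
  Pool.Agent.Lib.MP_1a91b9_ntK2.D9
open Pool.Agent.Lib.MP_1a91b9_ntH (wO s3 Nz PS nm Sx mem_Sx prime_s3 s3_sq)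

noncomputable section

theorem card_P3 (Y : ℕ) : ((Sx P3 Y).card : ℝ) ≤ 25 * Y := prm3.card_le Y

theorem cls_a {S T : Finset P3} (h : Disjoint S T) :
    d3b.cA (eT T) (S ∪ T) = cl3 (DD3 S * DD3 T ^ 2) := by
  rw [d3b.cA_union h, cl3_pp]
  rfl

theorem cls_b {S T : Finset P3} (h : Disjoint S T) :
    d3b.cB (eT T) (S ∪ T) = cn3 (DD3 S * DD3 T ^ 2) := by
  rw [d3b.cB_union h, cn3_pp]
  rfl

open Classical in
theorem SA9_eq (T : Finset P3) (α β : ZMod 3) (X : ℕ) :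
    Da.SA9 d3b T α β X = (Sx P3 X).filter fun S => Disjoint S T ∧
      cl3 (DD3 S * DD3 T ^ 2) = α ∧ cn3 (DD3 S * DD3 T ^ 2) = β := by
  ext S
  rw [Da.SA9, mem_filter, Da.mem_SxT, mem_filter]
  constructor
  · rintro ⟨⟨h1, h2⟩, h3, h4⟩
    rw [cls_a h2] at h3
    rw [cls_b h2] at h4
    exact ⟨h1, h2, h3, h4⟩
  · rintro ⟨h1, h2, h3, h4⟩
    refine ⟨⟨h1, h2⟩, ?_, ?_⟩
    · rw [cls_a h2]
      exact h3
    · rw [cls_b h2]
      exact h4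

open Classical in
/-- the form of the hypothesis of `density_all9` -/
theorem dens_of {T : Finset P3} {α β : ZMod 3} {κ ε : ℝ} {G : Finset P3 → Prop}
    {G' : Finset P3 → Prop} [DecidablePred G] {X : ℕ}
    (h : κ * ((Da.SA9 d3b T α β X).card : ℝ) - ε * X ≤
      (((Da.SA9 d3b T α β X).filter fun S => G S).card : ℝ))
    (hG : ∀ S, Disjoint S T → cl3 (DD3 S * DD3 T ^ 2) = α → cn3 (DD3 S * DD3 T ^ 2) = β → G S →
      G' S) :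
    κ * (((Sx P3 X).filter fun S => Disjoint S T ∧ cl3 (DD3 S * DD3 T ^ 2) = α ∧
      cn3 (DD3 S * DD3 T ^ 2) = β).card : ℝ) - ε * X ≤
    (((Sx P3 X).filter fun S => Disjoint S T ∧ (cl3 (DD3 S * DD3 T ^ 2) = α ∧
      cn3 (DD3 S * DD3 T ^ 2) = β) ∧ G' S).card : ℝ) := by
  rw [← SA9_eq]
  refine h.trans (Nat.cast_le.2 (card_le_card ?_))
  intro S hS
  rw [mem_filter, SA9_eq, mem_filter] at hS
  obtain ⟨⟨h1, h2, h3, h4⟩, h5⟩ := hS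
  rw [mem_filter]
  exact ⟨h1, h2, ⟨h3, h4⟩, hG S h2 h3 h4 h5⟩

theorem N_tw (k : ZMod 3) (e : P3 → ZMod 3) (R : Finset P3) :
    (d3b.tw k 0).N e 1 R = d3.N e k R := by
  rw [d3b.N_eq_NE, d3.N_eq_NE]
  congr 1
  funext q
  rw [zero_mul, add_zero]
  rfl

/-- **The unit classes which are not hard.** -/
theorem densU : DensU := by
  classical
  intro k α β hne T κ hκ ε hε
  by_cases hk : k = 0
  · subst hk
    have hα : α ≠ 0 := hne.resolve_left fun h => h rfl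
    obtain ⟨X₀, h⟩ := Da.density9_zero d3b_OK card_P3 T hκ ε hε
    refine ⟨X₀, fun X hX => dens_of (h X hX α β) ?_⟩
    intro S h2 h3 _ h5
    refine Or.inr ⟨rfl, ?_, h5⟩
    intro h6
    apply hα
    rw [← h3, ← cls_a h2]
    exact h6
  · obtain ⟨X₀, h⟩ := Da.density9 d3b_OK card_P3 (τ := k) (σ := 0) (Or.inl hk) T hκ ε hε
    refine ⟨X₀, fun X hX => dens_of (h X hX α β) ?_⟩
    intro S _ _ _ h5
    rw [N_tw] at h5
    exact Or.inl ⟨hk, h5⟩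

/-- **Q1, stage 1**: the unit classes modulo `9` which are not `± 1` modulo `3 √-3`. -/
theorem main_q1U (s u : 𝓞 (CyclotomicField 3 ℚ)) (hs : s ^ 2 = -3) (h0 : ¬ s ∣ u)
    (h1 : ¬ 3 * s ∣ u - 1) (h2 : ¬ 3 * s ∣ u + 1) (ε : ℝ) (hε : 0 < ε) :
    ∀ᶠ X : ℝ in Filter.atTop,
    (∏' i : ℕ, (1 + 1 / (3 : ℝ) ^ (i + 1))⁻¹) - ε ≤
      (Nat.card {D : 𝓞 (CyclotomicField 3 ℚ) // (∀ p, Prime p → ¬ p ^ 3 ∣ D) ∧ 9 ∣ D - u ∧
        |Algebra.norm ℤ D| ≤ X ∧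
        (∀ W : WeierstrassCurve (CyclotomicField 3 ℚ), W = ⟨0, 0, (D : CyclotomicField 3 ℚ), 0, 0⟩ →
          (∃ g : ℂ → ℂ, Differentiable ℂ g ∧ (∀ s : ℂ, 3 / 2 < s.re → g s = W.LSeries s) ∧
            g 1 ≠ 0) ∧ Finite W.toAffine.Point) ∧
        ∀ x y : CyclotomicField 3 ℚ, x ^ 3 + y ^ 3 = D → x ^ 3 = y ^ 3} : ℝ) /
      (Nat.card {D : 𝓞 (CyclotomicField 3 ℚ) // (∀ p, Prime p → ¬ p ^ 3 ∣ D) ∧ 9 ∣ D - u ∧
        |Algebra.norm ℤ D| ≤ X} : ℝ) :=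
  main_q1K densU s u hs h0 h1 h2 ε hε

end

end Pool.Agent.Lib.MP_1a91b9_ntK
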