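import Pool.Agent.Lib.MP_1a91b9_ntK.Q.Dens

/-!
# Cubic twists, assembly, file DensJ: the densities of the good pairs for `√-3 ∣ D` and for the hard class
-/

set_option autoImplicit false

namespace Pool.Agent.Lib.MP_1a91b9_ntK

open NumberField IsDedekindDomain Finset Pool.Agent.Lib.MP_1a91b9_ntT Pool.Agent.Lib.MP_1a91b9_ntK2
  Pool.Agent.Lib.MP_1a91b9_ntK2.D9
open Pool.Agent.Lib.MP_1a91b9_ntH (wO s3 Nz PS nm Sx mem_Sx prime_s3 s3_sq)

noncomputable section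

/-- the good pairs, `j = 2` -/
def Go2 (k : ZMod 3) (T S : Finset P3) : Prop := ((d3b.tw k 2).N (eT T) 1 (S ∪ T)).det ≠ 0

/-- the good pairs, `j = 1` -/
def Go1 (k : ZMod 3) (T S : Finset P3) : Prop := (d3b.NB (eT T) k 1 k (S ∪ T)).det ≠ 0

/-- the good pairs, hard class, `S ∪ T` may be empty -/
def GoB (β : ZMod 3) (T S : Finset P3) : Prop := d3b.kB (eT T) 0 0 β (S ∪ T) = 3

/-- the good pairs, hard class -/
def GoH (β : ZMod 3) (T S : Finset P3) : Prop := (S ∪ T).Nonempty ∧ GoB β T S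

open Classical in
/-- the elements `(S, T)` of a class -/
def Cls (T : Finset P3) (α β : ZMod 3) (X : ℕ) : Finset (Finset P3) :=
  (Sx P3 X).filter fun S => Disjoint S T ∧ cl3 (DD3 S * DD3 T ^ 2) = α ∧
    cn3 (DD3 S * DD3 T ^ 2) = β

open Classical in
/-- the good elements `(S, T)` of a class -/
def ClsG (T : Finset P3) (α β : ZMod 3) (G : Finset P3 → Prop) (X : ℕ) : Finset (Finset P3) :=
  (Sx P3 X).filter fun S => Disjoint S T ∧ (cl3 (DD3 S * DD3 T ^ 2) = α ∧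
    cn3 (DD3 S * DD3 T ^ 2) = β) ∧ G S

/-- `j = 2` -/
theorem dens2 (k α β : ZMod 3) (T : Finset P3) (κ : ℝ) (hκ : κ < Da.cinf3) (ε : ℝ) (hε : 0 < ε) :
    ∃ X₀ : ℕ, ∀ X : ℕ, X₀ ≤ X →
    κ * ((Cls T α β X).card : ℝ) - ε * X ≤ ((ClsG T α β (Go2 k T) X).card : ℝ) := by
  obtain ⟨X₀, h⟩ := Da.density9 d3b_OK card_P3 (τ := k) (σ := 2) (Or.inr (by decide)) T hκ ε hε
  refine ⟨X₀, fun X hX => ?_⟩
  refine dens_of (G' := Go2 k T) (h X hX α β) ?_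
  intro S _ _ _ h5
  exact h5

/-- `j = 1` -/
theorem dens1 (k α β : ZMod 3) (T : Finset P3) (κ : ℝ) (hκ : κ < Da.cinf3) (ε : ℝ) (hε : 0 < ε) :
    ∃ X₀ : ℕ, ∀ X : ℕ, X₀ ≤ X →
    κ * ((Cls T α β X).card : ℝ) - ε * X ≤ ((ClsG T α β (Go1 k T) X).card : ℝ) := by
  obtain ⟨X₀, h⟩ := Da.density9_B d3b_OK card_P3 k (σ := 1) (by decide) k T hκ ε hε
  refine ⟨X₀, fun X hX => ?_⟩
  refine dens_of (G' := Go1 k T) (h X hX α β) ?_
  intro S _ _ _ h5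
  exact h5

open Classical in
theorem ClsG_le (T : Finset P3) (α β : ZMod 3) (X : ℕ) :
    (ClsG T α β (GoB β T) X).card ≤ (ClsG T α β (GoH β T) X).card + 1 := by
  have h6 : ClsG T α β (GoB β T) X ⊆ insert ∅ (ClsG T α β (GoH β T) X) := by
    intro S hS
    rw [ClsG, mem_filter] at hS
    rw [mem_insert, ClsG, mem_filter]
    by_cases h7 : S = ∅
    · exact Or.inl h7
    · right
      have h8 : (S ∪ T).Nonempty := (nonempty_iff_ne_empty.2 h7).mono subset_union_left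
      exact ⟨hS.1, hS.2.1, hS.2.2.1, h8, hS.2.2.2⟩
  exact (card_le_card h6).trans (card_insert_le _ _)

/-- the hard class -/
theorem densH (β : ZMod 3) (T : Finset P3) (κ : ℝ) (hκ : κ < Da.cinf3) (ε : ℝ) (hε : 0 < ε) :
    ∃ X₀ : ℕ, ∀ X : ℕ, X₀ ≤ X →
    κ * ((Cls T 0 β X).card : ℝ) - ε * X ≤ ((ClsG T 0 β (GoH β T) X).card : ℝ) := by
  obtain ⟨X₀, h⟩ := Da.density9_B0 d3b_OK card_P3 β T hκ (ε / 2) (half_pos hε)
  refine ⟨X₀ + ⌈2 / ε⌉₊, fun X hX => ?_⟩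
  have h2 : κ * ((Cls T 0 β X).card : ℝ) - ε / 2 * X ≤ ((ClsG T 0 β (GoB β T) X).card : ℝ) := by
    refine dens_of (G' := GoB β T) (h X (by omega) β) ?_
    intro S _ _ _ h5
    exact h5
  have h3 : (2 : ℝ) / ε ≤ X := by
    have h4 : ⌈2 / ε⌉₊ ≤ X := by omega
    exact (Nat.le_ceil _).trans (by exact_mod_cast h4)
  have h4 : 1 ≤ ε / 2 * X := by
    rw [div_le_iff₀ hε] at h3
    linarith
  have h5 : ((ClsG T 0 β (GoB β T) X).card : ℝ) ≤ ((ClsG T 0 β (GoH β T) X).card : ℝ) + 1 := by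
    exact_mod_cast ClsG_le T 0 β X
  linarith

end

end Pool.Agent.Lib.MP_1a91b9_ntK
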