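import Pool.Agent.Lib.MP_1a91b9_ntK.Q.Neg
import Pool.Agent.Lib.MP_1a91b9_ntK.C.Tors3
import Pool.Agent.Lib.MP_1a91b9_ntK.D.K0

/-!
# Cubic twists, assembly, file Pts: Q1 for one `D`
-/

set_option autoImplicit false

namespace Pool.Agent.Lib.MP_1a91b9_ntK

open NumberField IsDedekindDomain Finset Pool.Agent.Lib.MP_1a91b9_ntT Pool.Agent.Lib.MP_1a91b9_ntG
  Pool.Agent.Lib.MP_1a91b9_nt
open Pool.Agent.Lib.MP_1a91b9_ntH (wO s3 cp Nz)

noncomputable section

/-- completing the square -/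
theorem finite_WD {D : 𝓞 K} {k : K} (hk : 2 * k = (D : K))
    (h : Finite (C.ck k).toAffine.Point) : Finite (WD D).toAffine.Point := by
  have key : ∀ x y : K, (WD D).toAffine.Nonsingular x y →
      (C.ck k).toAffine.Nonsingular x (y + k) := by
    intro x y hxy
    rw [WeierstrassCurve.Affine.nonsingular_iff, WeierstrassCurve.Affine.equation_iff] at hxy ⊢
    simp only [WD, C.ck] at hxy ⊢
    obtain ⟨h1, h2⟩ := hxy
    refine ⟨by linear_combination h1 + y * hk, ?_⟩
    rcases h2 with h2 | h2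
    · left
      simpa using h2
    · right
      intro h3
      apply h2
      linear_combination h3 - hk
  let f : (WD D).toAffine.Point → (C.ck k).toAffine.Point := fun P =>
    match P with
    | .zero => .zero
    | .some x y hxy => .some x (y + k) (key x y hxy)
  refine @Finite.of_injective _ _ h f ?_
  rintro (_ | ⟨x, y, hxy⟩) (_ | ⟨x', y', hxy'⟩) hf
  · rfl
  · cases hf
  · cases hf
  · have h1 : x = x' ∧ y + k = y' + k := by
      have := WeierstrassCurve.Affine.Point.some.inj hf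
      exact this
    obtain ⟨rfl, h2⟩ := h1
    obtain rfl := add_right_cancel h2
    rfl

theorem abar_d3 (q : P3) : abar q.1 = -d3.a q := by
  have h := cq_Dk 1 (fun _ => 0) ∅ q (notMem_empty q)
  have h1 : Dk 1 (fun _ => 0) ∅ = wO := by
    rw [Dk, prod_empty, mul_one]
    exact pow_one wO
  rw [h1, sum_empty, one_mul, add_zero] at h
  change abar q.1 = -cq q wO
  rw [h, neg_neg]

theorem NK_eq_N (k : ZMod 3) (e : P3 → ZMod 3) (R : Finset P3) : NK k e R = d3.N e k R := by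
  rw [d3.N_eq_NE, NK]
  congr 1
  funext q
  rw [kapK, abar_d3]
  ring

theorem Dk_eq_mon (k : ZMod 3) (e : P3 → ZMod 3) (R : Finset P3) :
    Dk k e R = C.mon R k.val fun q => (e q).val := rfl

/-- the condition on the matrix -/
def GoodK (k : ZMod 3) (e : P3 → ZMod 3) (R : Finset P3) : Prop :=
  (k ≠ 0 ∧ (d3.N e k R).det ≠ 0) ∨ (k = 0 ∧ ∑ q ∈ R, e q * d3.a q ≠ 0 ∧ d3.kc e 0 R = 3)

theorem z3_sq : ∀ x : ZMod 3, x ≠ 0 → x * x = 1 := by decide

variable {k : ZMod 3} {e : P3 → ZMod 3} {R : Finset P3}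

theorem GoodK.good3 (he : ∀ q, e q ≠ 0) (h : GoodK k e R) : C.Good3 R k e := by
  rcases h with ⟨_, h⟩ | ⟨rfl, hA, h⟩
  · refine C.good3_of_det (fun q _ => he q) ?_
    rw [NM_det_NE _ _ _ _ fun i _ => z3_sq _ (he i)]
    rw [d3.N_eq_NE] at h
    exact mul_ne_zero (prod_ne_zero_iff.2 fun q _ => he q) h
  · refine C.good3_of_ker (fun q _ => he q) hA fun U hU => ?_
    have h0 : (fun q : P3 => (0 : ZMod 3) * d3.a q) = 0 := by
      funext q
      rw [zero_mul]
      rfl
    rw [h0, NM_eq_NE _ _ _ _ fun i _ => z3_sq _ (he i), ← Matrix.mulVec_mulVec] at hU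
    obtain ⟨c, hc⟩ := d3.ker_NE e (fun i => z3_sq _ (he i)) R h _ hU
    refine ⟨c, fun q => ?_⟩
    have h1 := hc q
    rw [Matrix.mulVec_diagonal] at h1
    exact mul_left_cancel₀ (he q) (h1.trans (mul_comm _ _))

theorem GoodK.ram3 (h : GoodK k e R) : C.Ram3 R k.val fun q => (e q).val := by
  intro h1
  have hk : k = 0 := by
    have h2 := (ZMod.natCast_eq_zero_iff k.val 3).2 h1.1
    rwa [ZMod.natCast_zmod_val] at h2
  rcases h with ⟨h2, _⟩ | ⟨_, hA, _⟩
  · exact h2 hk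
  · apply hA
    have h3 := h1.2
    simpa only [ZMod.natCast_zmod_val] using h3

/-- **Q1 for one `D`** -/
theorem q1_one (he : ∀ q, e q ≠ 0) (h : GoodK k e R) {D : 𝓞 K}
    (hD : D = Dk k e R ∨ D = -Dk k e R) :
    (∃ g : ℂ → ℂ, Differentiable ℂ g ∧
      (∀ s : ℂ, 3 / 2 < s.re → g s = (WD D).LSeries s) ∧ g 1 ≠ 0) ∧
    Finite (WD D).toAffine.Point ∧ ∀ x y : K, x ^ 3 + y ^ 3 = (D : K) → x ^ 3 = y ^ 3 := by
  have hL : ∃ g : ℂ → ℂ, Differentiable ℂ g ∧
      (∀ s : ℂ, 3 / 2 < s.re → g s = (WD D).LSeries s) ∧ g 1 ≠ 0 := by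
    rcases h with ⟨hk, h⟩ | ⟨rfl, hA, h⟩
    · rw [← NK_eq_N] at h
      exact lvalue3_pm hk (fun q _ => he q) h hD
    · refine lvalue0_pm (fun q _ => he q) ?_ (fun v hv => ?_) hD
      · intro h1
        apply hA
        have h2 : ∑ q ∈ R, e q * d3.a q = -∑ q ∈ R, e q * abar q.1 := by
          rw [← sum_neg_distrib]
          refine sum_congr rfl fun q _ => ?_
          rw [abar_d3]
          ring
        rw [h2, h1, neg_zero]
      · rw [NK_eq_N] at hv
        exact d3.ker_of_kc e (fun i => z3_sq _ (he i)) R h v hv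
  have hE : ∀ q ∈ R, ¬ 3 ∣ (e q).val := by
    intro q _ h3
    have h4 := (ZMod.natCast_eq_zero_iff (e q).val 3).2 h3
    rw [ZMod.natCast_zmod_val] at h4
    exact he q h4
  have hG : C.Good3 R ((k.val : ℕ) : ZMod 3) fun q => ((e q).val : ZMod 3) := by
    simpa only [ZMod.natCast_zmod_val] using h.good3 he
  have h2 : (2 : K) ≠ 0 := two_ne_zero
  obtain ⟨hf, -, -, hc⟩ := C.main3 R k.val (fun q => (e q).val) hE h.ram3 hG
    (k := ((Dk k e R : 𝓞 K) : K) / 2) (by rw [← Dk_eq_mon]; field_simp) rfl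
  refine ⟨hL, ?_, ?_⟩
  · rcases hD with rfl | rfl
    · exact finite_WD (k := ((Dk k e R : 𝓞 K) : K) / 2) (by field_simp) hf
    · refine finite_WD (k := -(((Dk k e R : 𝓞 K) : K) / 2)) ?_ ?_
      · rw [RingOfIntegers.coe_eq_algebraMap, RingOfIntegers.coe_eq_algebraMap, map_neg]
        field_simp
      · have h3 : C.ck (-(((Dk k e R : 𝓞 K) : K) / 2)) = C.ck (((Dk k e R : 𝓞 K) : K) / 2) := by
          rw [C.ck, C.ck, neg_sq]
        rw [h3]
        exact hf
  · intro x y hxy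
    rw [← Dk_eq_mon] at hc
    rcases hD with rfl | rfl
    · exact hc x y hxy
    · have h4 : ((-Dk k e R : 𝓞 K) : K) = -((Dk k e R : 𝓞 K) : K) := by
        rw [RingOfIntegers.coe_eq_algebraMap, RingOfIntegers.coe_eq_algebraMap, map_neg]
      rw [h4] at hxy
      have h5 := hc (-x) (-y) (by linear_combination -hxy)
      linear_combination -h5

end

end Pool.Agent.Lib.MP_1a91b9_ntK
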