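import Pool.Agent.Lib.MP_1a91b9_ntK2.R.DensityAll9
import Pool.Agent.Lib.MP_1a91b9_ntK.Q.Const
import Pool.Agent.Lib.MP_1a91b9_ntK.Q.Pts

/-!
# Cubic twists, assembly, file Gen9: the residue classes modulo a divisor of `9`
-/

set_option autoImplicit false

namespace Pool.Agent.Lib.MP_1a91b9_ntK

open NumberField IsDedekindDomain Finset Pool.Agent.Lib.MP_1a91b9_ntT Pool.Agent.Lib.MP_1a91b9_ntK2
  Pool.Agent.Lib.MP_1a91b9_ntK2.D9
open Pool.Agent.Lib.MP_1a91b9_ntH (wO s3 Nz PS nm Sx mem_Sx prime_s3)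

noncomputable section

/-- cube-free in terms of the primes -/
theorem CF_iff (x : 𝓞 K) : CF x ↔ ∀ p, Prime p → ¬ p ^ 3 ∣ x := by
  constructor
  · intro h p hp hd
    exact hp.not_isUnit (h p hd)
  · intro h y hy
    by_contra hu
    by_cases h0 : y = 0
    · rw [h0, zero_pow (by norm_num)] at hy
      exact h s3 prime_s3 ((dvd_zero _).trans hy)
    · obtain ⟨p, hp, hpy⟩ := WfDvdMonoid.exists_irreducible_factor hu h0
      exact h p hp.prime ((pow_dvd_pow_of_dvd hpy 3).trans hy)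

theorem Cy_DD3 (S : Finset P3) (b : Bool) (k j : Fin 3) :
    Cy (b, k, j, cl3 (DD3 S), cn3 (DD3 S)) (DD3 S) := by
  have h1 : prm3.pp S ∅ = DD3 S := prm3.pp_empty S
  refine ⟨?_, DD3_in3 S, rfl, rfl⟩
  rw [← h1]
  exact prm3.pp_cf (disjoint_empty_right S)

/-- every residue class modulo `9` which is not divisible by `s3 ^ 3` contains cube-free elements -/
theorem exists_cf_congr {x : 𝓞 K} (hx : ¬ s3 ^ 3 ∣ x) : ∃ x', CF x' ∧ (9 : 𝓞 K) ∣ x' - x := by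
  obtain ⟨j, z, hz, hxz⟩ : ∃ (j : Fin 3) (z : 𝓞 K), ¬ s3 ∣ z ∧ x = s3 ^ (j : ℕ) * z := by
    by_cases h0 : s3 ∣ x
    · obtain ⟨x1, h1⟩ := h0
      by_cases h2 : s3 ∣ x1
      · obtain ⟨x2, h2'⟩ := h2
        refine ⟨2, x2, ?_, ?_⟩
        · rintro ⟨x3, h3⟩
          exact hx ⟨x3, by rw [h1, h2', h3]; ring⟩
        · rw [h1, h2']
          change _ = s3 ^ 2 * x2
          ring
      · exact ⟨1, x1, h2, by rw [h1]; change _ = s3 ^ 1 * x1; ring⟩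
    · exact ⟨0, x, h0, by change _ = s3 ^ 0 * x; ring⟩
  obtain ⟨v, hv, hv3⟩ := exists_unit3 hz
  obtain ⟨v', hv'⟩ := hv.exists_left_inv
  obtain ⟨b, k, hbk⟩ := exists_un (IsUnit.of_mul_eq_one v hv')
  obtain ⟨c, hc, X₀, hX₀⟩ := class_card_ge (cl3 (v * z)) (cn3 (v * z))
  have h1 : (0 : ℝ) < ((SC (cl3 (v * z)) (cn3 (v * z)) (X₀ + 1)).card : ℝ) := by
    refine lt_of_lt_of_le ?_ (hX₀ (X₀ + 1) (Nat.le_succ _))
    positivity
  obtain ⟨S, hS⟩ := card_pos.1 (by exact_mod_cast h1 : 0 < (SC (cl3 (v * z)) (cn3 (v * z)) (X₀ + 1)).card)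
  rw [SC, mem_filter] at hS
  have e1 : cl3 (DD3 S) = cl3 (v * z) := by
    rw [cl3_DD3]
    exact hS.2.1
  have e2 : cn3 (DD3 S) = cn3 (v * z) := by
    rw [cn3_DD3]
    exact hS.2.2
  have h9 := nine_dvd_of_cls (DD3_in3 S) hv3 e1 e2
  refine ⟨ph (b, k, j, cl3 (DD3 S), cn3 (DD3 S)) (DD3 S), ph_cf (Cy_DD3 S b k j), ?_⟩
  have e3 : ph (b, k, j, cl3 (DD3 S), cn3 (DD3 S)) (DD3 S) - x =
      v' * s3 ^ (j : ℕ) * (DD3 S - v * z) := by
    unfold ph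
    dsimp only
    rw [hbk, hxz]
    linear_combination (s3 ^ (j : ℕ) * z) * hv'
  rw [e3]
  exact Dvd.dvd.mul_left h9 _

/-- the class of `u` modulo a divisor `m` of `9` contains cube-free elements unless `s3 ^ 3` divides both -/
theorem exists_cf_class {m u : 𝓞 K} (hm : m ∣ 9) (hu : ¬ (s3 ^ 3 ∣ m ∧ s3 ^ 3 ∣ u)) :
    ∃ x, CF x ∧ m ∣ x - u := by
  obtain ⟨y, hy, hmy⟩ : ∃ y : 𝓞 K, ¬ s3 ^ 3 ∣ y ∧ m ∣ y - u := by
    by_cases h : s3 ^ 3 ∣ u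
    · refine ⟨u + m, fun h1 => hu ⟨?_, h⟩, ⟨1, by ring⟩⟩
      exact (dvd_add_right h).1 h1
    · exact ⟨u, h, by rw [sub_self]; exact dvd_zero _⟩
  obtain ⟨x, hx, h9⟩ := exists_cf_congr hy
  refine ⟨x, hx, ?_⟩
  have e : x - u = (x - y) + (y - u) := by ring
  rw [e]
  exact dvd_add (hm.trans h9) hmy

open Classical in
/-- **The density in a residue class modulo a divisor of `9`**, from the densities of the families. -/
theorem density_gen {m u : 𝓞 K} (hm : m ∣ 9) (hu : ¬ (s3 ^ 3 ∣ m ∧ s3 ^ 3 ∣ u))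
    (Good : Idx → Finset P3 → Finset P3 → Prop)
    (h : ∀ i : Idx, (∃ y, Cy i y ∧ m ∣ ph i y - u) → ∀ T : Finset P3, ∀ κ : ℝ, κ < Da.cinf3 →
      ∀ ε : ℝ, 0 < ε → ∃ X₀ : ℕ, ∀ X : ℕ, X₀ ≤ X →
      κ * (((Sx P3 X).filter fun S => Disjoint S T ∧ cl3 (DD3 S * DD3 T ^ 2) = i.2.2.2.1 ∧
        cn3 (DD3 S * DD3 T ^ 2) = i.2.2.2.2).card : ℝ) - ε * X ≤
      (((Sx P3 X).filter fun S => Disjoint S T ∧ (cl3 (DD3 S * DD3 T ^ 2) = i.2.2.2.1 ∧
        cn3 (DD3 S * DD3 T ^ 2) = i.2.2.2.2) ∧ Good i S T).card : ℝ))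
    (Pr : 𝓞 K → Prop) (hPr : ∀ (i : Idx) (S T : Finset P3), Disjoint S T →
      cl3 (DD3 S * DD3 T ^ 2) = i.2.2.2.1 → cn3 (DD3 S * DD3 T ^ 2) = i.2.2.2.2 →
      m ∣ ph i (DD3 S * DD3 T ^ 2) - u → Good i S T → Pr (ph i (DD3 S * DD3 T ^ 2)))
    (ε : ℝ) (hε : 0 < ε) :
    ∀ᶠ X : ℝ in Filter.atTop,
      (∏' i : ℕ, (1 + 1 / (3 : ℝ) ^ (i + 1))⁻¹) - ε ≤
      (Nat.card {x : 𝓞 K // (∀ p, Prime p → ¬ p ^ 3 ∣ x) ∧ m ∣ x - u ∧ |Algebra.norm ℤ x| ≤ X ∧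
          Pr x} : ℝ) /
        (Nat.card {x : 𝓞 K // (∀ p, Prime p → ¬ p ^ 3 ∣ x) ∧ m ∣ x - u ∧
          |Algebra.norm ℤ x| ≤ X} : ℝ) := by
  have hc := cinf3_gt
  rw [cinf3_form] at hc ⊢
  obtain ⟨κ, hκ1, hκ2⟩ : ∃ κ : ℝ, max 0 (Da.cinf3 - ε) < κ ∧ κ < Da.cinf3 :=
    exists_between (max_lt (by linarith) (by linarith))
  have key := density_all9 (fun x => m ∣ x - u) (fun i y y' hy hy' h9 => ?_)
    (exists_cf_class hm hu) κ (Da.cinf3 - ε) ((le_max_left _ _).trans hκ1.le)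
    (lt_of_le_of_lt (le_max_right _ _) hκ1) Good
    (fun i hi T η hη => h i hi T κ hκ2 η hη) Pr hPr
  · filter_upwards [key] with X hX
    simp only [CF_iff] at hX
    exact hX
  · have h1 : m ∣ ph i y - ph i y' := by
      refine hm.trans ?_
      unfold ph
      rw [← mul_sub, ← mul_sub]
      exact Dvd.dvd.mul_left (Dvd.dvd.mul_left h9 _) _
    constructor
    · intro h2
      have e : ph i y' - u = (ph i y - u) - (ph i y - ph i y') := by ring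
      rw [e]
      exact dvd_sub h2 h1
    · intro h2
      have e : ph i y - u = (ph i y' - u) + (ph i y - ph i y') := by ring
      rw [e]
      exact dvd_add h2 h1

/-! ### the elements of the families -/

theorem eT_val (T : Finset P3) (q : P3) : (eT T q).val = if q ∈ T then 2 else 1 := by
  unfold eT
  split_ifs <;> rfl

theorem eT_ne (T : Finset P3) (q : P3) : eT T q ≠ 0 := by
  unfold eT
  split_ifs <;> decide

theorem Dk_eT (k : ZMod 3) {S T : Finset P3} (hST : Disjoint S T) :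
    Dk k (eT T) (S ∪ T) = wO ^ k.val * (DD3 S * DD3 T ^ 2) := by
  rw [Dk, prod_union hST]
  congr 2
  · refine prod_congr rfl fun q hq => ?_
    rw [eT_val, if_neg (disjoint_left.1 hST hq), pow_one]
  · rw [DD3, ← prod_pow]
    refine prod_congr rfl fun q hq => ?_
    rw [eT_val, if_pos hq]

theorem ph_zero (b : Bool) (k : Fin 3) (α β : ZMod 3) {S T : Finset P3} (hST : Disjoint S T) :
    ph (b, k, 0, α, β) (DD3 S * DD3 T ^ 2) = Dk k (eT T) (S ∪ T) ∨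
      ph (b, k, 0, α, β) (DD3 S * DD3 T ^ 2) = -Dk k (eT T) (S ∪ T) := by
  rw [Dk_eT _ hST]
  have h0 : ((0 : Fin 3) : ℕ) = 0 := rfl
  have hk : ZMod.val (n := 3) k = (k : ℕ) := rfl
  unfold ph un
  dsimp only
  cases b
  · left
    rw [if_neg (by simp), h0, hk]
    ring
  · right
    rw [if_pos rfl, h0, hk]
    ring

end

end Pool.Agent.Lib.MP_1a91b9_ntK
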