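import Pool.Agent.Lib.MP_1a91b9_ntK.A.Top0

/-!
# Cubic twists, assembly, file Neg: the L-values for `± D`
-/

set_option autoImplicit false

namespace Pool.Agent.Lib.MP_1a91b9_ntK

open NumberField IsDedekindDomain Pool.Agent.Lib.MP_1a91b9_ntT Pool.Agent.Lib.MP_1a91b9_ntG
  Pool.Agent.Lib.MP_1a91b9_nt
open Pool.Agent.Lib.MP_1a91b9_ntH (wO s3 cp Nz)
open Pool.Agent.Lib.MP_1a91b9_ntX.R (cs cs_mul cs_pow cs_one G3)

noncomputable section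

/-- the symbol of `-D` -/
theorem Neg_cq (q : P3) {D : 𝓞 K} (h : ¬ q.1 ∣ D) : cq q (-D) = cq q D := by
  have hG : G3 (Ideal.span {q.1}) := g3 q.2.1 q.2.2
  have hm : ∀ x : 𝓞 K, ¬ q.1 ∣ x → x ∉ Ideal.span {q.1} := fun x h h1 =>
    h (Ideal.mem_span_singleton.1 h1)
  have h1 : ¬ q.1 ∣ (-1 : 𝓞 K) := fun h2 => q.2.1.not_isUnit (isUnit_of_dvd_unit h2 (by simp))
  have h2 : cq q ((-1) * (-1)) = cq q (-1) + cq q (-1) := cs_mul hG (hm _ h1) (hm _ h1)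
  have h3 : cq q ((-1) * (-1)) = 0 := by
    rw [neg_one_mul, neg_neg]
    exact cs_one hG
  have h4 : cq q (-1) = 0 := by
    rw [h3] at h2
    revert h2
    generalize cq q (-1) = z
    revert z
    decide
  have h5 : cq q ((-1) * D) = cq q (-1) + cq q D := cs_mul hG (hm _ h1) (hm _ h)
  rw [← neg_one_mul D, h5, h4, zero_add]

/-- the L-series for `± D` -/
theorem ser3_gen_pm {D D' ν : 𝓞 K} (hDD : D' = D ∨ D' = -D) {X : 𝓞 K → ℂ} (hX : Chr 3 ν X)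
    (hD : D ≠ 0) (hbad : ∀ q : P3, q.1 ∣ D → ¬ q.1 ^ 3 ∣ D ∧ X q.1 = 0)
    (hgood : ∀ q : P3, ¬ q.1 ∣ D → X q.1 = e3 (cq q D)) :
    ∃ g : ℂ → ℂ, Differentiable ℂ g ∧ (∀ s : ℂ, 3 / 2 < s.re → g s = (WD D').LSeries s) ∧
      g 1 = LG 3 X 1 * (starRingEnd ℂ) (LG 3 X 1) := by
  rcases hDD with rfl | rfl
  · exact ser3_gen hX hD hbad hgood
  · refine ser3_gen hX (neg_ne_zero.2 hD) (fun q hq => ?_) (fun q hq => ?_)
    · obtain ⟨h1, h2⟩ := hbad q ((dvd_neg).1 hq)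
      exact ⟨fun h => h1 ((dvd_neg).1 h), h2⟩
    · have hq' : ¬ q.1 ∣ D := fun h => hq ((dvd_neg).2 h)
      rw [Neg_cq q hq']
      exact hgood q hq'

theorem ser3_pm (k : ZMod 3) (e : P3 → ZMod 3) (S : Finset P3) (he : ∀ q ∈ S, e q ≠ 0)
    {D : 𝓞 K} (hD : D = Dk k e S ∨ D = -Dk k e S) :
    ∃ g : ℂ → ℂ, Differentiable ℂ g ∧
      (∀ s : ℂ, 3 / 2 < s.re → g s = (WD D).LSeries s) ∧
      g 1 = Lk k e S 1 * (starRingEnd ℂ) (Lk k e S 1) :=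
  ser3_gen_pm hD (Xk_chr k e S) (Dk_ne k e S)
    (fun q hq => ⟨Dk_cube k e S q, Xk_bad k e S q (Dk_dvd k e S q hq)⟩)
    (fun q hq => Xk_good k e S q fun h => hq (Dk_of_mem k e S he q h))

/-- **Q1**, `k ≠ 0`, for `± D` -/
theorem lvalue3_pm {k : ZMod 3} (hk : k ≠ 0) {e : P3 → ZMod 3} {S : Finset P3}
    (he : ∀ q ∈ S, e q ≠ 0) (h : (NK k e S).det ≠ 0) {D : 𝓞 K}
    (hD : D = Dk k e S ∨ D = -Dk k e S) :
    ∃ g : ℂ → ℂ, Differentiable ℂ g ∧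
      (∀ s : ℂ, 3 / 2 < s.re → g s = (WD D).LSeries s) ∧ g 1 ≠ 0 := by
  obtain ⟨g, h1, h2, h3⟩ := ser3_pm k e S he hD
  refine ⟨g, h1, h2, fun h0 => ?_⟩
  rw [h0] at h3
  have h4 := Lk_ne hk he h
  exact mul_ne_zero h4 ((_root_.map_ne_zero _).2 h4) h3.symm

/-- **Q1**, `k = 0`, for `± D` -/
theorem lvalue0_pm {e : P3 → ZMod 3} {S : Finset P3} (he : ∀ q ∈ S, e q ≠ 0)
    (hA : ∑ q ∈ S, e q * abar q.1 ≠ 0)
    (hker : ∀ v : S → ZMod 3, (NK 0 e S).mulVec v = 0 → ∃ c : ZMod 3, ∀ i, v i = c * e i)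
    {D : 𝓞 K} (hD : D = Dk 0 e S ∨ D = -Dk 0 e S) :
    ∃ g : ℂ → ℂ, Differentiable ℂ g ∧
      (∀ s : ℂ, 3 / 2 < s.re → g s = (WD D).LSeries s) ∧ g 1 ≠ 0 := by
  have hS : S.Nonempty := by
    rw [Finset.nonempty_iff_ne_empty]
    rintro rfl
    exact hA Finset.sum_empty
  obtain ⟨g, h1, h2, h3⟩ := ser3_pm 0 e S he hD
  refine ⟨g, h1, h2, fun h0 => ?_⟩
  rw [h0] at h3
  have h5 : CZ (fun i p => d3.s i p * e p) (fun q : P3 => abar q.1) S ≠ 0 := by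
    refine CZ_ne_of_ker d3.s d3_sym (fun q : P3 => abar q.1) e he hA ?_
    rw [← NK_zero]
    exact hker
  have h4 := L0_ne hS he h5
  exact mul_ne_zero h4 ((_root_.map_ne_zero _).2 h4) h3.symm

end

end Pool.Agent.Lib.MP_1a91b9_ntK
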